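import Mathlib

/-!
# DFJ: Laurent, DetFin, Seq
-/

section

/-!
PROJECT DFJ (MP_03f222_gt): Laurent polynomials over a field: principal ideal ring, the degree
(highest minus lowest exponent), and `dim K[T;T⁻¹]/(a) = degree a`.
-/

namespace Pool.Agent.Helper35.DFJ

open Polynomial LaurentPolynomial

variable {K : Type*} [Field K]

instance isPIR : IsPrincipalIdealRing K[T;T⁻¹] := by
  refine ⟨fun I => ?_⟩
  have h := IsLocalization.map_under (Submonoid.powers (X : K[X])) K[T;T⁻¹] I
  obtain ⟨f, hf⟩ := (IsPrincipalIdealRing.principal (I.under K[X])).principal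
  refine ⟨⟨algebraMap K[X] K[T;T⁻¹] f, ?_⟩⟩
  rw [← h, hf]
  change Ideal.map _ (Ideal.span {f}) = Ideal.span _
  rw [Ideal.map_span, Set.image_singleton]

/-- highest exponent minus lowest exponent of a Laurent polynomial (`0` for the zero polynomial) -/
noncomputable def ldeg (f : K[T;T⁻¹]) : ℤ :=
  if h : f.coeff.support.Nonempty then f.coeff.support.max' h - f.coeff.support.min' h else 0

theorem coeff_T_mul (n m : ℤ) (f : K[T;T⁻¹]) : (T n * f).coeff m = f.coeff (m - n) := by
  have h := AddMonoidAlgebra.coeff_single_mul_apply f (1 : K) n m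
  rw [one_mul, neg_add_eq_sub] at h
  exact h

/-- normal form of a nonzero Laurent polynomial -/
theorem exists_form {a : K[T;T⁻¹]} (ha : a ≠ 0) :
    ∃ (n : ℤ) (g : K[X]), g.coeff 0 ≠ 0 ∧ a = T n * toLaurent g := by
  obtain ⟨n, f, hf⟩ := LaurentPolynomial.exists_T_pow a
  have hf0 : f ≠ 0 := by
    rintro rfl
    rw [map_zero] at hf
    exact ha ((isUnit_T (n : ℤ)).mul_left_eq_zero.1 hf.symm)
  obtain ⟨g, hg, hng⟩ := Polynomial.exists_eq_pow_rootMultiplicity_mul_and_not_dvd f hf0 0
  refine ⟨(f.rootMultiplicity 0 : ℤ) - n, g, ?_, ?_⟩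
  · intro h0
    apply hng
    rw [Polynomial.C_0, sub_zero]
    exact Polynomial.X_dvd_iff.2 h0
  · have h1 : a = toLaurent f * T (-(n : ℤ)) := by
      rw [hf, mul_assoc, ← T_add, add_neg_cancel, T_zero, mul_one]
    rw [h1, hg, Polynomial.C_0, sub_zero, map_mul, Polynomial.toLaurent_X_pow, sub_eq_add_neg, T_add]
    have hr : Polynomial.rootMultiplicity 0 (X ^ Polynomial.rootMultiplicity 0 f * g) =
        Polynomial.rootMultiplicity 0 f := by
      conv_rhs => rw [hg, Polynomial.C_0, sub_zero]
    rw [hr]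
    ring

theorem ldeg_form (n : ℤ) {g : K[X]} (hg : g.coeff 0 ≠ 0) :
    ldeg (T n * toLaurent g) = g.natDegree := by
  have hg0 : g ≠ 0 := by
    rintro rfl
    exact hg (Polynomial.coeff_zero 0)
  have hc : ∀ m : ℕ, (T n * toLaurent g).coeff (n + m) = g.coeff m := by
    intro m
    rw [coeff_T_mul, add_sub_cancel_left]
    change (Finsupp.mapDomain (Nat.castEmbedding : ℕ ↪ ℤ) g.toFinsupp.coeff) (Nat.castEmbedding m) = _
    rw [Finsupp.mapDomain_apply (Nat.castEmbedding : ℕ ↪ ℤ).injective]
    rfl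
  have hsupp : ∀ z : ℤ, z ∈ (T n * toLaurent g).coeff.support ↔
      ∃ m : ℕ, m ∈ g.support ∧ z = n + m := by
    intro z
    constructor
    · intro hz
      rw [Finsupp.mem_support_iff, coeff_T_mul, ← Finsupp.mem_support_iff,
        support_coeff_toLaurent, Finset.mem_map] at hz
      obtain ⟨m, hm, hmz⟩ := hz
      refine ⟨m, hm, ?_⟩
      have : (m : ℤ) = z - n := hmz
      omega
    · rintro ⟨m, hm, rfl⟩
      rw [Finsupp.mem_support_iff, hc m]
      exact Polynomial.mem_support_iff.1 hm
  have hne : (T n * toLaurent g).coeff.support.Nonempty :=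
    ⟨n + (0 : ℕ), (hsupp _).2 ⟨0, Polynomial.mem_support_iff.2 hg, rfl⟩⟩
  rw [ldeg, dif_pos hne]
  have hmax : (T n * toLaurent g).coeff.support.max' hne = n + g.natDegree := by
    apply le_antisymm
    · apply Finset.max'_le
      intro z hz
      obtain ⟨m, hm, rfl⟩ := (hsupp z).1 hz
      have := Polynomial.le_natDegree_of_mem_supp m hm
      omega
    · apply Finset.le_max'
      exact (hsupp _).2 ⟨g.natDegree, Polynomial.natDegree_mem_support_of_nonzero hg0, rfl⟩
  have hmin : (T n * toLaurent g).coeff.support.min' hne = n := by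
    apply le_antisymm
    · apply Finset.min'_le
      exact (hsupp _).2 ⟨0, Polynomial.mem_support_iff.2 hg, by simp⟩
    · apply Finset.le_min'
      intro z hz
      obtain ⟨m, hm, rfl⟩ := (hsupp z).1 hz
      omega
  rw [hmax, hmin]
  omega

theorem ldeg_nonneg (a : K[T;T⁻¹]) : 0 ≤ ldeg a := by
  by_cases h : a = 0
  · subst h
    rw [ldeg, dif_neg]
    simp
  · obtain ⟨n, g, hg, rfl⟩ := exists_form h
    rw [ldeg_form n hg]
    positivity

theorem ldeg_mul {a b : K[T;T⁻¹]} (ha : a ≠ 0) (hb : b ≠ 0) : ldeg (a * b) = ldeg a + ldeg b := by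
  obtain ⟨n, g, hg, rfl⟩ := exists_form ha
  obtain ⟨m, h, hh, rfl⟩ := exists_form hb
  have h0 : (g * h).coeff 0 ≠ 0 := by
    rw [Polynomial.mul_coeff_zero]
    exact mul_ne_zero hg hh
  have hg0 : g ≠ 0 := by
    rintro rfl
    exact hg (Polynomial.coeff_zero 0)
  have hh0 : h ≠ 0 := by
    rintro rfl
    exact hh (Polynomial.coeff_zero 0)
  have h1 : T n * toLaurent g * (T m * toLaurent h) = T (n + m) * toLaurent (g * h) := by
    rw [T_add, map_mul]
    ring
  rw [h1, ldeg_form _ h0, ldeg_form _ hg, ldeg_form _ hh, Polynomial.natDegree_mul hg0 hh0]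
  push_cast
  ring

theorem ldeg_isUnit {a : K[T;T⁻¹]} (ha : IsUnit a) : ldeg a = 0 := by
  obtain ⟨u, rfl⟩ := ha
  have h1 : ldeg (1 : K[T;T⁻¹]) = 0 := by
    have := ldeg_form (K := K) 0 (g := 1) (by simp)
    rw [T_zero, one_mul, map_one, Polynomial.natDegree_one] at this
    exact_mod_cast this
  have h2 := ldeg_mul (a := (u : K[T;T⁻¹])) (b := (↑u⁻¹ : K[T;T⁻¹])) u.ne_zero (u⁻¹).ne_zero
  rw [Units.mul_inv, h1] at h2
  have h3 := ldeg_nonneg (u : K[T;T⁻¹])
  have h4 := ldeg_nonneg (↑u⁻¹ : K[T;T⁻¹])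
  omega

theorem ldeg_prod {ι : Type*} (s : Finset ι) (f : ι → K[T;T⁻¹]) (h : ∀ i ∈ s, f i ≠ 0) :
    ldeg (∏ i ∈ s, f i) = ∑ i ∈ s, ldeg (f i) := by
  classical
  induction s using Finset.induction_on with
  | empty => simp [ldeg_isUnit isUnit_one]
  | insert i s hi ih =>
    rw [Finset.prod_insert hi, Finset.sum_insert hi, ldeg_mul (h i (Finset.mem_insert_self i s)) ?_,
      ih (fun j hj => h j (Finset.mem_insert_of_mem hj))]
    exact Finset.prod_ne_zero_iff.2 (fun j hj => h j (Finset.mem_insert_of_mem hj))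

theorem coprime_X_pow {g : K[X]} (hg : g.coeff 0 ≠ 0) (k : ℕ) : IsCoprime (X ^ k) g := by
  apply IsCoprime.pow_left
  apply (Polynomial.irreducible_X.coprime_iff_not_dvd).2
  intro h
  exact hg (Polynomial.X_dvd_iff.1 h)

/-- `K[X]/(g) ≅ K[T;T⁻¹]/(g)` if `g(0) ≠ 0` -/
theorem quot_equiv {g : K[X]} (hg : g.coeff 0 ≠ 0) :
    Nonempty ((K[X] ⧸ Ideal.span {g}) ≃ₐ[K] (K[T;T⁻¹] ⧸ Ideal.span {toLaurent g})) := by
  let φ : K[X] →ₐ[K] (K[T;T⁻¹] ⧸ Ideal.span {toLaurent g}) :=
    (Ideal.Quotient.mkₐ K (Ideal.span {toLaurent g})).comp Polynomial.toLaurentAlg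
  have hφ : ∀ p, φ p = Ideal.Quotient.mk (Ideal.span {toLaurent g}) (toLaurent p) := fun p => rfl
  have hsurj : Function.Surjective φ := by
    intro y
    obtain ⟨r, rfl⟩ := Ideal.Quotient.mk_surjective y
    obtain ⟨k, f, hf⟩ := LaurentPolynomial.exists_T_pow r
    obtain ⟨u, v, huv⟩ := coprime_X_pow hg k
    refine ⟨f * u, ?_⟩
    rw [hφ, Ideal.Quotient.eq, Ideal.mem_span_singleton]
    refine ⟨-(r * toLaurent v), ?_⟩
    have h1 : toLaurent u * T (k : ℤ) + toLaurent v * toLaurent g = 1 := by
      rw [← Polynomial.toLaurent_X_pow, ← map_mul, ← map_mul, ← map_add, huv, map_one]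
    rw [map_mul, hf]
    linear_combination r * h1
  have hker : RingHom.ker φ = Ideal.span {g} := by
    ext p
    rw [RingHom.mem_ker, hφ, Ideal.Quotient.eq_zero_iff_mem, Ideal.mem_span_singleton,
      Ideal.mem_span_singleton]
    constructor
    · rintro ⟨q, hq⟩
      obtain ⟨k, q', hq'⟩ := LaurentPolynomial.exists_T_pow q
      have h1 : toLaurent (p * X ^ k) = toLaurent (g * q') := by
        rw [map_mul, map_mul, Polynomial.toLaurent_X_pow, hq, hq', mul_assoc]
      have h2 := Polynomial.toLaurent_injective h1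
      have h3 : g ∣ p * X ^ k := ⟨q', h2⟩
      exact (coprime_X_pow hg k).symm.dvd_of_dvd_mul_right h3
    · rintro ⟨q, rfl⟩
      exact ⟨toLaurent q, by rw [map_mul]⟩
  exact ⟨(Ideal.quotientEquivAlgOfEq K hker.symm).trans
    (Ideal.quotientKerAlgEquivOfSurjective hsurj)⟩

theorem finite_quot_poly {g : K[X]} (hg : g ≠ 0) : Module.Finite K (K[X] ⧸ Ideal.span {g}) := by
  exact (AdjoinRoot.powerBasis hg).finite

theorem finrank_quot {a : K[T;T⁻¹]} (ha : a ≠ 0) :
    Module.Finite K (K[T;T⁻¹] ⧸ Ideal.span {a}) ∧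
      (Module.finrank K (K[T;T⁻¹] ⧸ Ideal.span {a}) : ℤ) = ldeg a := by
  obtain ⟨n, g, hg, rfl⟩ := exists_form ha
  have hg0 : g ≠ 0 := by
    rintro rfl
    exact hg (Polynomial.coeff_zero 0)
  have hs : Ideal.span {T n * toLaurent g} = Ideal.span {toLaurent g} := by
    apply Ideal.span_singleton_eq_span_singleton.2
    exact (associated_isUnit_mul_left_iff (isUnit_T n)).2 (Associated.refl _)
  rw [hs]
  obtain ⟨e⟩ := quot_equiv hg
  have := finite_quot_poly hg0
  refine ⟨Module.Finite.equiv e.toLinearEquiv, ?_⟩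
  rw [← e.toLinearEquiv.finrank_eq, finrank_quotient_span_eq_natDegree, ldeg_form n hg]

end Pool.Agent.Helper35.DFJ

end

section

/-!
PROJECT DFJ (MP_03f222_gt): for a square matrix `A` over `R = K[T;T⁻¹]`, the cokernel of `A` is
finite dimensional over `K` iff `det A ≠ 0`, and then its dimension is the degree of `det A`.
-/

namespace Pool.Agent.Helper35.DFJ

open Polynomial LaurentPolynomial Module

variable {K : Type*} [Field K]

section
variable {m : Type*} [Fintype m] [DecidableEq m]

theorem mulVec_inj {A : Matrix m m K[T;T⁻¹]} (h : A.det ≠ 0) :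
    Function.Injective A.mulVecLin := by
  rw [injective_iff_map_eq_zero]
  intro v hv
  exact Matrix.eq_zero_of_mulVec_eq_zero h hv

theorem rank_eq {A : Matrix m m K[T;T⁻¹]} (h : A.det ≠ 0) :
    finrank K[T;T⁻¹] (LinearMap.range A.mulVecLin) = finrank K[T;T⁻¹] (m → K[T;T⁻¹]) :=
  LinearMap.finrank_range_of_inj (mulVec_inj h)

theorem ldeg_det {A : Matrix m m K[T;T⁻¹]} (h : A.det ≠ 0) :
    ldeg A.det = ∑ i, ldeg (Submodule.smithNormalFormCoeffs (Pi.basisFun K[T;T⁻¹] m)
      (rank_eq h) i) := by
  set N := LinearMap.range A.mulVecLin with hN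
  let b := Pi.basisFun K[T;T⁻¹] m
  let b' := Submodule.smithNormalFormTopBasis b (rank_eq h)
  let ab := Submodule.smithNormalFormBotBasis b (rank_eq h)
  let a := Submodule.smithNormalFormCoeffs b (rank_eq h)
  let e : (m → K[T;T⁻¹]) ≃ₗ[K[T;T⁻¹]] N := LinearEquiv.ofInjective _ (mulVec_inj h)
  let De : (m → K[T;T⁻¹]) ≃ₗ[K[T;T⁻¹]] N := b'.equiv ab (Equiv.refl _)
  let D : (m → K[T;T⁻¹]) →ₗ[K[T;T⁻¹]] (m → K[T;T⁻¹]) := N.subtype ∘ₗ De.toLinearMap
  let U : (m → K[T;T⁻¹]) ≃ₗ[K[T;T⁻¹]] (m → K[T;T⁻¹]) := e.trans De.symm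
  have hfac : A.mulVecLin = D ∘ₗ U.toLinearMap := by
    refine LinearMap.ext fun v => ?_
    change A.mulVecLin v = N.subtype (De (De.symm (e v)))
    rw [LinearEquiv.apply_symm_apply]
    rfl
  have hdetA : LinearMap.det A.mulVecLin = A.det := by
    rw [← Matrix.toLin'_apply']
    exact LinearMap.det_toLin' A
  have hD : LinearMap.det D = ∏ i, a i := by
    rw [← LinearMap.det_toMatrix b']
    have : LinearMap.toMatrix b' b' D = Matrix.diagonal a := by
      ext i j
      rw [LinearMap.toMatrix_apply]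
      have h1 : D (b' j) = a j • b' j := by
        simp only [D, De, LinearMap.comp_apply, LinearEquiv.coe_coe, Basis.equiv_apply,
          Equiv.refl_apply, Submodule.subtype_apply]
        exact Submodule.smithNormalFormBotBasis_def b (rank_eq h) j
      rw [h1, map_smul, Basis.repr_self, Finsupp.smul_single, smul_eq_mul, mul_one,
        Matrix.diagonal_apply]
      by_cases hij : i = j
      · subst hij
        simp
      · rw [if_neg hij, Finsupp.single_apply, if_neg (Ne.symm hij)]
    rw [this, Matrix.det_diagonal]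
  have hU : IsUnit (LinearMap.det U.toLinearMap) := LinearEquiv.isUnit_det' U
  have hmain : A.det = (∏ i, a i) * LinearMap.det U.toLinearMap := by
    rw [← hdetA, hfac, LinearMap.det_comp, hD]
  have ha0 : ∀ i, a i ≠ 0 := Submodule.smithNormalFormCoeffs_ne_zero b (rank_eq h)
  rw [hmain, ldeg_mul (Finset.prod_ne_zero_iff.2 fun i _ => ha0 i) hU.ne_zero, ldeg_isUnit hU,
    add_zero, ldeg_prod _ _ (fun i _ => ha0 i)]

/-- the cokernel of a matrix with nonzero determinant -/
theorem coker_dim {A : Matrix m m K[T;T⁻¹]} (h : A.det ≠ 0) :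
    Module.Finite K ((m → K[T;T⁻¹]) ⧸ LinearMap.range A.mulVecLin) ∧
    (finrank K ((m → K[T;T⁻¹]) ⧸ LinearMap.range A.mulVecLin) : ℤ) = ldeg A.det := by
  have ha0 := Submodule.smithNormalFormCoeffs_ne_zero (Pi.basisFun K[T;T⁻¹] m) (rank_eq h)
  have hf : ∀ i, Module.Finite K (K[T;T⁻¹] ⧸ Ideal.span
      ({Submodule.smithNormalFormCoeffs (Pi.basisFun K[T;T⁻¹] m) (rank_eq h) i} :
        Set K[T;T⁻¹])) := fun i => (finrank_quot (ha0 i)).1
  constructor
  · have e := ((LinearMap.range A.mulVecLin).quotientEquivPiSpan (Pi.basisFun K[T;T⁻¹] m)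
      (rank_eq h)).restrictScalars K
    exact Module.Finite.equiv e.symm
  · rw [Submodule.finrank_quotient_eq_sum K (Pi.basisFun K[T;T⁻¹] m) (rank_eq h), ldeg_det h]
    push_cast
    exact Finset.sum_congr rfl (fun i _ => (finrank_quot (ha0 i)).2)

/-- conversely a finite dimensional cokernel forces a nonzero determinant -/
theorem det_ne_zero_of_finite {A : Matrix m m K[T;T⁻¹]}
    (h : Module.Finite K ((m → K[T;T⁻¹]) ⧸ LinearMap.range A.mulVecLin)) : A.det ≠ 0 := by
  set N := LinearMap.range A.mulVecLin with hN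
  have key : ∀ j : m, ∃ f : K[T;T⁻¹], f ≠ 0 ∧ (Pi.single j f : m → K[T;T⁻¹]) ∈ N := by
    intro j
    let L : K[X] →ₗ[K] ((m → K[T;T⁻¹]) ⧸ N) :=
      { toFun := fun p => N.mkQ (Pi.single j (toLaurent p))
        map_add' := by
          intro p q
          rw [map_add, Pi.single_add, map_add]
        map_smul' := by
          intro c p
          rw [RingHom.id_apply, Polynomial.smul_eq_C_mul, map_mul, Polynomial.toLaurent_C]
          rw [← LaurentPolynomial.smul_eq_C_mul, Pi.single_smul]
          exact (N.mkQ.restrictScalars K).map_smul c _ }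
    have hni : ¬ Function.Injective L := by
      intro hinj
      have : Module.Finite K K[X] := Module.Finite.of_injective L hinj
      exact Polynomial.not_finite this
    rw [injective_iff_map_eq_zero] at hni
    push Not at hni
    obtain ⟨p, hp, hp0⟩ := hni
    refine ⟨toLaurent p, Polynomial.toLaurent_ne_zero.2 hp0, ?_⟩
    exact (Submodule.Quotient.mk_eq_zero N).1 hp
  choose f hf0 hfN using key
  have h2 : ∀ j, ∃ v : m → K[T;T⁻¹], A.mulVec v = Pi.single j (f j) := by
    intro j
    obtain ⟨v, hv⟩ := hfN j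
    exact ⟨v, hv⟩
  choose v hv using h2
  have h3 : A * (Matrix.of fun i j => v j i) = Matrix.diagonal f := by
    ext i j
    have h4 := congrFun (hv j) i
    rw [Matrix.diagonal_apply, Matrix.mul_apply]
    rw [Matrix.mulVec, dotProduct] at h4
    simp only [Matrix.of_apply]
    rw [h4]
    by_cases hij : i = j
    · subst hij
      simp
    · rw [if_neg hij, Pi.single_eq_of_ne hij]
  intro h0
  have h5 := congrArg Matrix.det h3
  rw [Matrix.det_mul, h0, zero_mul, Matrix.det_diagonal] at h5
  exact (Finset.prod_ne_zero_iff.2 fun i _ => hf0 i) h5.symm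

end

end Pool.Agent.Helper35.DFJ

end

section

/-!
PROJECT DFJ (MP_03f222_gt): a matrix `B` over `K[T;T⁻¹]` acts on two-sided sequences; the kernel
is dual to the cokernel of the transpose, so its dimension is the degree of `det B`.
-/

namespace Pool.Agent.Helper35.DFJ

open scoped Polynomial
open LaurentPolynomial Module

variable {K : Type*} [Field K]

/-- coefficients as a linear map -/
noncomputable def coeffLin : K[T;T⁻¹] →ₗ[K] (ℤ →₀ K) where
  toFun f := f.coeff
  map_add' _ _ := rfl
  map_smul' _ _ := rfl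

/-- `∑ n, f n * s n` -/
noncomputable def pair (s : ℤ → K) : K[T;T⁻¹] →ₗ[K] K :=
  (Finsupp.linearCombination K s) ∘ₗ coeffLin

theorem pair_C_mul_T (s : ℤ → K) (a : K) (n : ℤ) : pair s (C a * T n) = a * s n := by
  rw [← single_eq_C_mul_T]
  change Finsupp.linearCombination K s (Finsupp.single n a) = _
  rw [Finsupp.linearCombination_single, smul_eq_mul]

theorem pair_T (s : ℤ → K) (n : ℤ) : pair s (T n) = s n := by
  have := pair_C_mul_T s 1 n
  rwa [map_one, one_mul, one_mul] at this

theorem laurent_hom_ext {V : Type*} [AddCommMonoid V] [Module K V] {f g : K[T;T⁻¹] →ₗ[K] V}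
    (h : ∀ n, f (T n) = g (T n)) : f = g := by
  refine LinearMap.ext fun x => ?_
  induction x using LaurentPolynomial.induction_on' with
  | add p q hp hq => rw [map_add, map_add, hp, hq]
  | C_mul_T n a => rw [← LaurentPolynomial.smul_eq_C_mul, map_smul, map_smul, h]

/-- the action of a Laurent polynomial on a two-sided sequence, `T` acting as the shift
`s ↦ s (· + 1)` -/
noncomputable def act (f : K[T;T⁻¹]) (s : ℤ → K) (i : ℤ) : K := pair s (T i * f)

theorem act_C_mul_T (a : K) (n : ℤ) (s : ℤ → K) (i : ℤ) :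
    act (C a * T n) s i = a * s (i + n) := by
  rw [act, show (T i : K[T;T⁻¹]) * (C a * T n) = C a * T (i + n) by rw [T_add]; ring, pair_C_mul_T]

section
variable {p q : Type*} [Fintype p] [DecidableEq p] [Fintype q] [DecidableEq q]

/-- sequences `s : q → ℤ → K` killed by the matrix `B` -/
def SeqKer (B : Matrix p q K[T;T⁻¹]) : Submodule K (q → ℤ → K) where
  carrier := {s | ∀ i k, ∑ j, act (B i j) (s j) k = 0}
  add_mem' := by
    intro s t hs ht i k
    have : ∀ j, act (B i j) ((s + t) j) k = act (B i j) (s j) k + act (B i j) (t j) k := by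
      intro j
      simp only [act, pair, LinearMap.comp_apply, Pi.add_apply,
        Finsupp.linearCombination_apply, Finsupp.sum, smul_eq_mul, mul_add,
        Finset.sum_add_distrib]
    simp only [this, Finset.sum_add_distrib, hs i k, ht i k, add_zero]
  zero_mem' := by
    intro i k
    apply Finset.sum_eq_zero
    intro j _
    simp [act, pair]
  smul_mem' := by
    intro c s hs i k
    have : ∀ j, act (B i j) ((c • s) j) k = c * act (B i j) (s j) k := by
      intro j
      simp only [act, pair, LinearMap.comp_apply, Pi.smul_apply,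
        Finsupp.linearCombination_apply, Finsupp.sum, smul_eq_mul, Finset.mul_sum]
      refine Finset.sum_congr rfl fun x _ => by ring
    simp only [this, ← Finset.mul_sum, hs i k, mul_zero]

/-- sequences are functionals -/
noncomputable def seqDual : (q → ℤ → K) ≃ₗ[K] Dual K (q → K[T;T⁻¹]) where
  toFun s := ∑ j, (pair (s j)) ∘ₗ (LinearMap.proj j)
  map_add' := by
    intro s t
    rw [← Finset.sum_add_distrib]
    refine Finset.sum_congr rfl fun j _ => ?_
    refine LinearMap.ext fun v => ?_
    simp only [pair, LinearMap.comp_apply, Pi.add_apply, LinearMap.add_apply,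
        Finsupp.linearCombination_apply, Finsupp.sum, smul_eq_mul, mul_add,
        Finset.sum_add_distrib]
  map_smul' := by
    intro c s
    rw [Finset.smul_sum]
    refine Finset.sum_congr rfl fun j _ => ?_
    refine LinearMap.ext fun v => ?_
    simp only [pair, LinearMap.comp_apply, Pi.smul_apply, LinearMap.smul_apply,
        Finsupp.linearCombination_apply, Finsupp.sum, smul_eq_mul, Finset.mul_sum,
        RingHom.id_apply]
    refine Finset.sum_congr rfl fun x _ => by ring
  invFun L := fun j n => L (Pi.single j (T n))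
  left_inv := by
    intro s
    funext j n
    simp only [LinearMap.sum_apply, LinearMap.comp_apply, LinearMap.proj_apply]
    rw [Finset.sum_eq_single j]
    · rw [Pi.single_eq_same, pair_T]
    · intro i _ hij
      rw [Pi.single_eq_of_ne hij, map_zero]
    · intro h
      exact absurd (Finset.mem_univ j) h
  right_inv := by
    intro L
    refine LinearMap.pi_ext' fun j => laurent_hom_ext fun n => ?_
    simp only [LinearMap.sum_apply, LinearMap.comp_apply, LinearMap.proj_apply]
    rw [Finset.sum_eq_single j]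
    · rw [LinearMap.coe_single, Pi.single_eq_same, pair_T]
    · intro i _ hij
      rw [LinearMap.coe_single, Pi.single_eq_of_ne hij, map_zero]
    · intro h
      exact absurd (Finset.mem_univ j) h

theorem seqDual_apply (s : q → ℤ → K) (v : q → K[T;T⁻¹]) :
    seqDual s v = ∑ j, pair (s j) (v j) := by
  simp [seqDual, LinearMap.sum_apply]

theorem mem_seqKer_iff (B : Matrix p q K[T;T⁻¹]) (s : q → ℤ → K) :
    s ∈ SeqKer B ↔ seqDual s ∈
      ((LinearMap.range B.transpose.mulVecLin).restrictScalars K).dualAnnihilator := by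
  rw [Submodule.mem_dualAnnihilator]
  have hval : ∀ i k, seqDual s (B.transpose.mulVecLin (Pi.single i (T k))) =
      ∑ j, act (B i j) (s j) k := by
    intro i k
    rw [seqDual_apply]
    refine Finset.sum_congr rfl fun j _ => ?_
    rw [act]
    congr 1
    rw [Matrix.mulVecLin_apply, Matrix.mulVec, dotProduct, Finset.sum_eq_single i]
    · rw [Pi.single_eq_same, Matrix.transpose_apply, mul_comm]
    · intro l _ hl
      rw [Pi.single_eq_of_ne hl, mul_zero]
    · intro h
      exact absurd (Finset.mem_univ i) h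
  constructor
  · intro hs w hw
    obtain ⟨u, rfl⟩ := hw
    have h0 : (seqDual s) ∘ₗ (B.transpose.mulVecLin.restrictScalars K) = 0 := by
      refine LinearMap.pi_ext' fun i => laurent_hom_ext fun k => ?_
      change seqDual s (B.transpose.mulVecLin (Pi.single i (T k))) = 0
      rw [hval, hs i k]
    exact LinearMap.congr_fun h0 u
  · intro h i k
    rw [← hval]
    exact h _ ⟨_, rfl⟩

/-- the kernel on sequences is the dual of the cokernel of the transpose -/
noncomputable def seqKerEquiv (B : Matrix p q K[T;T⁻¹]) :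
    SeqKer B ≃ₗ[K] Dual K ((q → K[T;T⁻¹]) ⧸ LinearMap.range B.transpose.mulVecLin) :=
  let W := (LinearMap.range B.transpose.mulVecLin).restrictScalars K
  have h : SeqKer B = W.dualAnnihilator.comap (seqDual (K := K) (q := q)).toLinearMap := by
    ext s
    rw [mem_seqKer_iff, Submodule.mem_comap]
    rfl
  (LinearEquiv.ofEq _ _ h).trans <|
    (seqDual.submoduleMap _).trans <|
    (LinearEquiv.ofEq _ _ (Submodule.map_comap_eq_of_surjective seqDual.surjective _)).trans <|
    W.dualQuotEquivDualAnnihilator.symm.trans <|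
    (Submodule.Quotient.restrictScalarsEquiv K (LinearMap.range B.transpose.mulVecLin)).symm.dualMap

end

section
variable {m : Type*} [Fintype m] [DecidableEq m]

theorem seqKer_dim {B : Matrix m m K[T;T⁻¹]} (h : B.det ≠ 0) :
    Module.Finite K (SeqKer B) ∧ (finrank K (SeqKer B) : ℤ) = ldeg B.det := by
  have h1 := coker_dim (A := B.transpose) (by rwa [Matrix.det_transpose])
  have := h1.1
  refine ⟨Module.Finite.equiv (seqKerEquiv B).symm, ?_⟩
  rw [(seqKerEquiv B).finrank_eq, Subspace.dual_finrank_eq, h1.2, Matrix.det_transpose]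

theorem det_ne_zero_of_seqKer {B : Matrix m m K[T;T⁻¹]} (h : Module.Finite K (SeqKer B)) :
    B.det ≠ 0 := by
  have h1 : Module.Finite K
      (Dual K ((m → K[T;T⁻¹]) ⧸ LinearMap.range B.transpose.mulVecLin)) :=
    Module.Finite.equiv (seqKerEquiv B)
  have h2 := (Module.finite_dual_iff K).1 h1
  have h3 := det_ne_zero_of_finite h2
  rwa [Matrix.det_transpose] at h3

end

end Pool.Agent.Helper35.DFJ

end
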