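import Pool.Agent.Helper95.DFJ.St.A9
import Pool.Agent.Helper95.DFJ.Wada
import Pool.Agent.Helper35.DFJ.Seq

/-!
# DFJ: A8a, A8c, A8, Const
-/

section

/-!
# DFJ piece A8a, A8b (Fox calculus)

A8a: prove the rule for lists (`foxList j (L ++ L')`), invariance under free reduction (`FreeGroup.Red`), then `toWord`.
A8b: by A8a both sides are crossed homomorphisms in `w` (for the right side: `lact (A * B) f = lact A (lact B f)`, `lact (wadaPhi (single u 1)) f = seqRep (π u) f`),
so it is enough to compare on generators (`Zc_ext`).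
-/

noncomputable section

namespace Pool.Agent.Helper95.DFJ

open Multiplicative Module
open scoped LaurentPolynomial MatrixGroups

variable {G : Type*} [Group G]

theorem foxList_append {n : ℕ} (j : Fin n) (L L' : List (Fin n × Bool)) :
    foxList j (L ++ L') = foxList j L + MonoidAlgebra.single (FreeGroup.mk L) 1 * foxList j L' := by
  induction L with
  | nil =>
    rw [List.nil_append, foxList, zero_add, ← FreeGroup.one_eq_mk, ← MonoidAlgebra.one_def, one_mul]
  | cons a L ih =>
    obtain ⟨i, b⟩ := a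
    cases b with
    | true =>
      have h : FreeGroup.mk ((i, true) :: L) = FreeGroup.of i * FreeGroup.mk L := by
        rw [FreeGroup.of, FreeGroup.mul_mk]; rfl
      rw [List.cons_append, foxList, foxList, ih, h, mul_add, ← mul_assoc, MonoidAlgebra.single_mul_single,
        one_mul, add_assoc]
    | false =>
      have h : FreeGroup.mk ((i, false) :: L) = (FreeGroup.of i)⁻¹ * FreeGroup.mk L := by
        rw [FreeGroup.of, FreeGroup.inv_mk, FreeGroup.mul_mk]; rfl
      rw [List.cons_append, foxList, foxList, ih, h, add_sub_right_comm, mul_add, ← mul_assoc,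
        MonoidAlgebra.single_mul_single, one_mul]

theorem foxList_step {n : ℕ} (j : Fin n) {L L' : List (Fin n × Bool)} (h : FreeGroup.Red.Step L L') :
    foxList j L = foxList j L' := by
  obtain @⟨L₁, L₂, x, b⟩ := h
  have h0 : foxList j [(x, b), (x, !b)] = 0 := by
    cases b with
    | true =>
      simp only [Bool.not_true, foxList]
      rw [zero_sub, ← mul_assoc, MonoidAlgebra.single_mul_single, mul_inv_cancel, one_mul,
        ← MonoidAlgebra.one_def, one_mul, add_neg_cancel]
    | false =>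
      simp only [Bool.not_false, foxList]
      rw [mul_zero, add_zero, sub_self, mul_zero]
  have h1 : FreeGroup.mk [(x, b), (x, !b)] = 1 := by
    rw [FreeGroup.one_eq_mk]
    apply Quot.sound
    exact FreeGroup.Red.Step.cons_not
  have h2 : foxList j ((x, b) :: (x, !b) :: L₂) = foxList j L₂ := by
    have := foxList_append j [(x, b), (x, !b)] L₂
    rw [h0, h1, zero_add, ← MonoidAlgebra.one_def, one_mul] at this
    exact this
  rw [foxList_append, foxList_append, h2]

theorem foxList_red {n : ℕ} (j : Fin n) {L L' : List (Fin n × Bool)} (h : FreeGroup.Red L L') :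
    foxList j L = foxList j L' := by
  induction h with
  | refl => rfl
  | tail _ h ih => exact ih.trans (foxList_step j h)

/-- product rule -/
theorem A8a {n : ℕ} (j : Fin n) (u v : FreeGroup (Fin n)) :
    fox j (u * v) = fox j u + MonoidAlgebra.single u 1 * fox j v := by
  rw [fox, fox, fox, FreeGroup.toWord_mul, ← foxList_red j FreeGroup.reduce.red, foxList_append,
    FreeGroup.mk_toWord]

/-- the action of the Laurent matrix `A` on sequences -/
def lact {ι κ : Type*} [Fintype κ] (A : Matrix ι κ ℂ[T;T⁻¹]) (f : ℤ → κ → ℂ) (i : ℤ) (p : ι) : ℂ :=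
  ∑ q, (A p q).coeff.sum (fun e a => a * f (i - e) q)

/-- the shift on scalar sequences -/
def shHom : Multiplicative ℤ →* Module.End ℂ (ℤ → ℂ) where
  toFun e :=
    { toFun := fun g i => g (i - toAdd e)
      map_add' := fun g h => rfl
      map_smul' := fun r g => rfl }
  map_one' := by
    refine LinearMap.ext fun g => funext fun i => ?_
    simp
  map_mul' e e' := by
    refine LinearMap.ext fun g => funext fun i => ?_
    simp only [LinearMap.coe_mk, AddHom.coe_mk, Module.End.mul_apply, toAdd_mul, sub_sub]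

/-- the action of Laurent polynomials on scalar sequences -/
def shAlg : ℂ[T;T⁻¹] →ₐ[ℂ] Module.End ℂ (ℤ → ℂ) :=
  AddMonoidAlgebra.lift ℂ (Module.End ℂ (ℤ → ℂ)) ℤ shHom

theorem shAlg_apply (a : ℂ[T;T⁻¹]) (g : ℤ → ℂ) (i : ℤ) :
    shAlg a g i = a.coeff.sum (fun e r => r * g (i - e)) := by
  rw [shAlg, AddMonoidAlgebra.lift_apply, Finsupp.sum, Finsupp.sum, LinearMap.sum_apply, Finset.sum_apply]
  rfl

theorem lact_eq {ι κ : Type*} [Fintype κ] (A : Matrix ι κ ℂ[T;T⁻¹]) (f : ℤ → κ → ℂ) (i : ℤ) (p : ι) :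
    lact A f i p = ∑ q, shAlg (A p q) (fun i => f i q) i := by
  rw [lact]
  exact Finset.sum_congr rfl fun q _ => (shAlg_apply (A p q) (fun i => f i q) i).symm

theorem lact_add {ι κ : Type*} [Fintype κ] (A B : Matrix ι κ ℂ[T;T⁻¹]) (f : ℤ → κ → ℂ) :
    lact (A + B) f = lact A f + lact B f := by
  funext i p
  rw [Pi.add_apply, Pi.add_apply, lact_eq, lact_eq, lact_eq, ← Finset.sum_add_distrib]
  refine Finset.sum_congr rfl fun q _ => ?_
  rw [Matrix.add_apply, map_add]
  rfl

theorem lact_zero {ι κ : Type*} [Fintype κ] (f : ℤ → κ → ℂ) :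
    lact (0 : Matrix ι κ ℂ[T;T⁻¹]) f = 0 := by
  funext i p
  rw [lact_eq]
  refine Finset.sum_eq_zero fun q _ => ?_
  rw [Matrix.zero_apply, map_zero]
  rfl

theorem lact_sum {ι κ ν : Type*} [Fintype κ] (s : Finset ν) (A : Matrix ι κ ℂ[T;T⁻¹])
    (f : ν → ℤ → κ → ℂ) : lact A (∑ l ∈ s, f l) = ∑ l ∈ s, lact A (f l) := by
  funext i p
  rw [Finset.sum_apply, Finset.sum_apply, lact_eq]
  simp only [lact_eq]
  rw [Finset.sum_comm]
  refine Finset.sum_congr rfl fun q _ => ?_
  have : (fun i => (∑ l ∈ s, f l) i q) = ∑ l ∈ s, fun i => f l i q := by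
    funext i
    rw [Finset.sum_apply, Finset.sum_apply, Finset.sum_apply]
  rw [this, map_sum, Finset.sum_apply]

theorem lact_mul {ι κ μ : Type*} [Fintype κ] [Fintype μ] (A : Matrix ι κ ℂ[T;T⁻¹])
    (B : Matrix κ μ ℂ[T;T⁻¹]) (f : ℤ → μ → ℂ) : lact (A * B) f = lact A (lact B f) := by
  funext i p
  rw [lact_eq, lact_eq]
  have h : ∀ q, (fun i => lact B f i q) = ∑ r, shAlg (B q r) (fun i => f i r) := by
    intro q
    funext i
    rw [lact_eq, Finset.sum_apply]
  simp only [h, map_sum, Finset.sum_apply, Matrix.mul_apply, map_mul, LinearMap.sum_apply,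
    Module.End.mul_apply]
  rw [Finset.sum_comm]

theorem shAlg_T_C (e : ℤ) (r : ℂ) (g : ℤ → ℂ) (i : ℤ) :
    shAlg ((LaurentPolynomial.T e : ℂ[T;T⁻¹]) * LaurentPolynomial.C r) g i = r * g (i - e) := by
  rw [map_mul, Module.End.mul_apply]
  have h1 : shAlg (LaurentPolynomial.C r : ℂ[T;T⁻¹]) = algebraMap ℂ _ r := by
    rw [← AlgHom.commutes shAlg r]
    rfl
  have h2 : shAlg (LaurentPolynomial.T e : ℂ[T;T⁻¹]) = shHom (ofAdd e) := by
    rw [shAlg, LaurentPolynomial.T, AddMonoidAlgebra.lift_single, one_smul]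
  rw [h1, h2]
  rfl

theorem lact_wadaPhi_single {n : ℕ} (ρ : G →* SL(2, ℂ)) (α : G →* Multiplicative ℤ)
    (π : FreeGroup (Fin n) →* G) (u : FreeGroup (Fin n)) (f : ℤ → Fin 2 → ℂ) :
    lact (wadaPhi ρ α π (MonoidAlgebra.single u 1)) f = seqRep (repV ρ) α (π u) f := by
  funext i p
  have h : wadaPhi ρ α π (MonoidAlgebra.single u 1) = tensorHom ρ α (π u) := by
    rw [wadaPhi, MonoidAlgebra.lift_single, one_smul]
    rfl
  rw [h, lact_eq, seqRep_apply]
  have h2 : (repV ρ (π u) (f (i - toAdd (α (π u))))) p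
      = ∑ q, (ρ (π u) : Matrix (Fin 2) (Fin 2) ℂ) p q * f (i - toAdd (α (π u))) q := rfl
  rw [h2]
  refine Finset.sum_congr rfl fun q _ => ?_
  exact shAlg_T_C _ _ _ _

/-- the values of a crossed homomorphism on a word, through Fox calculus -/
theorem A8b {n : ℕ} (ρ : G →* SL(2, ℂ)) (α : G →* Multiplicative ℤ) (π : FreeGroup (Fin n) →* G)
    (c : FreeGroup (Fin n) → ℤ → Fin 2 → ℂ)
    (hc : c ∈ Zc ((seqRep (repV ρ) α).comp π)) (w : FreeGroup (Fin n)) (i : ℤ) (p : Fin 2) :
    c w i p = ∑ j, lact (wadaPhi ρ α π (fox j w)) (c (FreeGroup.of j)) i p := by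
  let d : FreeGroup (Fin n) → ℤ → Fin 2 → ℂ := fun w =>
    ∑ j, lact (wadaPhi ρ α π (fox j w)) (c (FreeGroup.of j))
  have hd : d ∈ Zc ((seqRep (repV ρ) α).comp π) := by
    intro u v
    show ∑ j, lact (wadaPhi ρ α π (fox j (u * v))) (c (FreeGroup.of j))
      = ∑ j, lact (wadaPhi ρ α π (fox j u)) (c (FreeGroup.of j)) +
        seqRep (repV ρ) α (π u) (∑ j, lact (wadaPhi ρ α π (fox j v)) (c (FreeGroup.of j)))
    rw [← lact_wadaPhi_single, lact_sum, ← Finset.sum_add_distrib]
    refine Finset.sum_congr rfl fun j _ => ?_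
    rw [A8a, map_add, map_mul, lact_add, lact_mul]
  have hcd : c = d := by
    refine Zc_ext hc hd (Set.range FreeGroup.of) (FreeGroup.closure_range_of _) ?_
    rintro _ ⟨k, rfl⟩
    show c (FreeGroup.of k) = ∑ j, lact (wadaPhi ρ α π (fox j (FreeGroup.of k))) (c (FreeGroup.of j))
    rw [Finset.sum_eq_single k]
    · have h1 : fox k (FreeGroup.of k) = MonoidAlgebra.single 1 1 := by
        rw [fox, FreeGroup.toWord_of, foxList, foxList, mul_zero, add_zero, if_pos rfl,
          MonoidAlgebra.one_def]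
      rw [h1, lact_wadaPhi_single, map_one, map_one, Module.End.one_apply]
    · intro j _ hjk
      have h1 : fox j (FreeGroup.of k) = 0 := by
        rw [fox, FreeGroup.toWord_of, foxList, foxList, mul_zero, add_zero, if_neg (Ne.symm hjk)]
      rw [h1, map_zero, lact_zero]
    · intro h
      exact absurd (Finset.mem_univ k) h
  calc c w i p = d w i p := by rw [← hcd]
    _ = _ := by
      show (∑ j, lact (wadaPhi ρ α π (fox j w)) (c (FreeGroup.of j))) i p = _
      rw [Finset.sum_apply, Finset.sum_apply]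

end Pool.Agent.Helper95.DFJ

end

end

section

/-!
# DFJ piece A8c (Laurent polynomial matrices on two-sided sequences)

The kernel on sequences is the dual of the cokernel of the transposed matrix; the dimension of the
cokernel is the breadth of the determinant (`K[T;T⁻¹]` is a principal ideal domain). See
`Pool/Agent/Helper35/DFJ/{Laurent,DetFin,Seq}.lean`.
-/

noncomputable section

namespace Pool.Agent.Helper95.DFJ

open Multiplicative Module
open scoped LaurentPolynomial MatrixGroups

variable {G : Type*} [Group G]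

theorem act_eq_sum (a : ℂ[T;T⁻¹]) (s : ℤ → ℂ) (k : ℤ) :
    Helper35.DFJ.act a s k = a.coeff.sum (fun e c => c * s (k + e)) := by
  induction a using LaurentPolynomial.induction_on' with
  | add p q hp hq =>
    have h1 : Helper35.DFJ.act (p + q) s k = Helper35.DFJ.act p s k + Helper35.DFJ.act q s k := by
      rw [Helper35.DFJ.act, Helper35.DFJ.act, Helper35.DFJ.act, mul_add, map_add]
    rw [h1, hp, hq]
    have h2 : (p + q).coeff = p.coeff + q.coeff := rfl
    rw [h2, Finsupp.sum_add_index']
    · intro e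
      rw [zero_mul]
    · intro e x y
      rw [add_mul]
  | C_mul_T n c =>
    rw [Helper35.DFJ.act_C_mul_T, ← LaurentPolynomial.single_eq_C_mul_T]
    change _ = (Finsupp.single n c).sum _
    rw [Finsupp.sum_single_index]
    rw [zero_mul]

/-- reflection of sequences -/
def reflEquiv {ι : Type*} [Fintype ι] [DecidableEq ι] (A : Matrix ι ι ℂ[T;T⁻¹])
    (K : Submodule ℂ (ℤ → ι → ℂ))
    (hK : ∀ f, f ∈ K ↔ ∀ i p, ∑ q, (A p q).coeff.sum (fun e a => a * f (i - e) q) = 0) :
    K ≃ₗ[ℂ] Helper35.DFJ.SeqKer A where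
  toFun f := ⟨fun q k => f.1 (-k) q, by
    intro p k
    have h := (hK f.1).1 f.2 (-k) p
    rw [← h]
    refine Finset.sum_congr rfl fun q _ => ?_
    rw [act_eq_sum]
    refine Finsupp.sum_congr fun e _ => ?_
    change _ * f.1 (-(k + e)) q = _
    rw [neg_add, sub_eq_add_neg]⟩
  invFun s := ⟨fun i q => s.1 q (-i), by
    rw [hK]
    intro i p
    have h := s.2 p (-i)
    rw [← h]
    refine Finset.sum_congr rfl fun q _ => ?_
    rw [act_eq_sum]
    refine Finsupp.sum_congr fun e _ => ?_
    rw [neg_sub, sub_eq_add_neg, add_comm]⟩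
  map_add' _ _ := rfl
  map_smul' _ _ := rfl
  left_inv f := by
    apply Subtype.ext
    funext i q
    change f.1 (- -i) q = f.1 i q
    rw [neg_neg]
  right_inv s := by
    apply Subtype.ext
    funext q k
    change s.1 q (- -k) = s.1 q k
    rw [neg_neg]

/-- kernel finite dimensional implies nonzero determinant, and then its dimension is the breadth of the determinant -/
theorem A8c {ι : Type*} [Fintype ι] [DecidableEq ι] (A : Matrix ι ι ℂ[T;T⁻¹])
    (K : Submodule ℂ (ℤ → ι → ℂ))
    (hK : ∀ f, f ∈ K ↔ ∀ i p, ∑ q, (A p q).coeff.sum (fun e a => a * f (i - e) q) = 0)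
    [FiniteDimensional ℂ K] : A.det ≠ 0 ∧ (finrank ℂ K : ℤ) = breadth A.det := by
  have h1 : Module.Finite ℂ (Helper35.DFJ.SeqKer A) := Module.Finite.equiv (reflEquiv A K hK)
  have h2 := Helper35.DFJ.det_ne_zero_of_seqKer h1
  refine ⟨h2, ?_⟩
  rw [(reflEquiv A K hK).finrank_eq, (Helper35.DFJ.seqKer_dim h2).2]
  rfl

/-- for a nonzero determinant the kernel is finite dimensional -/
theorem A8d {ι : Type*} [Fintype ι] [DecidableEq ι] (A : Matrix ι ι ℂ[T;T⁻¹])
    (K : Submodule ℂ (ℤ → ι → ℂ))
    (hK : ∀ f, f ∈ K ↔ ∀ i p, ∑ q, (A p q).coeff.sum (fun e a => a * f (i - e) q) = 0)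
    (h : A.det ≠ 0) : FiniteDimensional ℂ K := by
  have h1 := (Helper35.DFJ.seqKer_dim h).1
  exact Module.Finite.equiv (reflEquiv A K hK).symm

end Pool.Agent.Helper95.DFJ

end

end

section

/-!
# DFJ piece A8 (the degree of Wada's invariant)

Let `Z_k` be the space of `c ∈ Zc` with `c (π x_k) = 0`. By A8b and the presentation, `Z_k` is isomorphic to the kernel `K` on sequences of the square Fox matrix of
`wadaNum` (`f = (c (π x_q))` for `q ≠ k`; conversely a solution defines a crossed homomorphism of the free group, for instance as a homomorphism to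
`Equiv.Perm` by `aff`, whose kernel contains the relators, hence `π.ker`). The map `Z_k → D`: write `c = d + cob m`. The space `Z_k` is contained in
`D + {cob m}`; more precisely the linear map `Z_k → Zc / cob` has image of dimension at most `finrank D` and its kernel is `{cob m : x_k m = m}`, the image of
the kernel on sequences of the `2 × 2` matrix `wadaPhi (x_k - 1)`, of dimension `breadth (wadaDen)` (A8c, A8d, `hden`). So `Z_k` and `K` are finite dimensional with
`finrank K ≤ finrank D + breadth wadaDen`, and A8c for the Fox matrix gives the claim.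
-/

noncomputable section

namespace Pool.Agent.Helper95.DFJ

open Multiplicative Module
open scoped LaurentPolynomial MatrixGroups

variable {G : Type*} [Group G]

/-- the action of a Laurent matrix on sequences as a linear map -/
def lactL {ι κ : Type*} [Fintype κ] (A : Matrix ι κ ℂ[T;T⁻¹]) : (ℤ → κ → ℂ) →ₗ[ℂ] (ℤ → ι → ℂ) where
  toFun := lact A
  map_add' f g := by
    funext i p
    rw [Pi.add_apply, Pi.add_apply, lact_eq, lact_eq, lact_eq, ← Finset.sum_add_distrib]
    refine Finset.sum_congr rfl fun q _ => ?_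
    have : (fun i => (f + g) i q) = (fun i => f i q) + fun i => g i q := rfl
    rw [this, map_add, Pi.add_apply]
  map_smul' r f := by
    funext i p
    rw [RingHom.id_apply, Pi.smul_apply, Pi.smul_apply, lact_eq, lact_eq, smul_eq_mul, Finset.mul_sum]
    refine Finset.sum_congr rfl fun q _ => ?_
    have : (fun i => (r • f) i q) = r • fun i => f i q := rfl
    rw [this, map_smul, Pi.smul_apply, smul_eq_mul]

theorem mem_ker_lactL {ι κ : Type*} [Fintype κ] (A : Matrix ι κ ℂ[T;T⁻¹]) (f : ℤ → κ → ℂ) :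
    f ∈ LinearMap.ker (lactL A) ↔ ∀ i p, ∑ q, (A p q).coeff.sum (fun e a => a * f (i - e) q) = 0 := by
  rw [LinearMap.mem_ker]
  constructor
  · intro h i p
    exact congrFun (congrFun h i) p
  · intro h
    funext i p
    exact h i p

/-- coboundaries as a linear map -/
def cobL8 {F : Type*} [Field F] {M : Type*} [AddCommGroup M] [Module F M] (σ : Representation F G M) :
    M →ₗ[F] (G → M) where
  toFun := cob σ
  map_add' a b := by
    funext g
    simp only [cob, map_add, Pi.add_apply]; abel
  map_smul' r a := by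
    funext g
    simp only [cob, map_smul, Pi.smul_apply, RingHom.id_apply, smul_sub]

/-- dimension count for crossed homomorphisms vanishing at `t` -/
theorem finrank_Zt_le {F : Type*} [Field F] {M : Type*} [AddCommGroup M] [Module F M]
    (σ : Representation F G M) (t : G) (D : Submodule F (G → M)) [FiniteDimensional F D]
    (hspan : ∀ c ∈ Zc σ, ∃ d ∈ D, ∃ m : M, c = d + cob σ m)
    (K : Submodule F M) [FiniteDimensional F K] (hK : ∀ m, σ t m = m → m ∈ K) :
    FiniteDimensional F (Zt σ t) ∧ finrank F (Zt σ t) ≤ finrank F D + finrank F K := by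
  let B : Submodule F (G → M) := LinearMap.range (cobL8 σ)
  let T : Zt σ t →ₗ[F] (G → M) ⧸ B := B.mkQ.comp (Zt σ t).subtype
  have hr : LinearMap.range T ≤ D.map B.mkQ := by
    rintro _ ⟨c, rfl⟩
    obtain ⟨d, hd, m, hm⟩ := hspan c.1 c.2.1
    refine ⟨d, hd, ?_⟩
    show B.mkQ d = B.mkQ c.1
    rw [hm, map_add]
    have : B.mkQ (cob σ m) = 0 := by
      rw [Submodule.mkQ_apply, Submodule.Quotient.mk_eq_zero]
      exact ⟨m, rfl⟩
    rw [this, add_zero]
  have hk : (LinearMap.ker T).map (Zt σ t).subtype ≤ K.map (cobL8 σ) := by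
    rintro _ ⟨c, hc, rfl⟩
    have h1 : B.mkQ c.1 = 0 := hc
    rw [Submodule.mkQ_apply, Submodule.Quotient.mk_eq_zero] at h1
    obtain ⟨m, hm⟩ := h1
    refine ⟨m, hK m ?_, hm⟩
    have h2 : cob σ m t = 0 := by
      have : cobL8 σ m t = c.1 t := congrFun hm t
      rw [c.2.2] at this
      exact this
    exact sub_eq_zero.1 h2
  have f1 : FiniteDimensional F (LinearMap.range T) := Submodule.finiteDimensional_of_le hr
  have f2 : FiniteDimensional F ((LinearMap.ker T).map (Zt σ t).subtype) :=
    Submodule.finiteDimensional_of_le hk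
  have e2 : (LinearMap.ker T) ≃ₗ[F] (LinearMap.ker T).map (Zt σ t).subtype :=
    Submodule.equivMapOfInjective _ (Submodule.injective_subtype _) _
  have f3 : FiniteDimensional F (LinearMap.ker T) := Module.Finite.equiv e2.symm
  have f4 : FiniteDimensional F (Zt σ t ⧸ LinearMap.ker T) :=
    Module.Finite.equiv (LinearMap.quotKerEquivRange T).symm
  have f5 : FiniteDimensional F (Zt σ t) := Module.Finite.of_submodule_quotient (LinearMap.ker T)
  refine ⟨f5, ?_⟩
  rw [← LinearMap.finrank_range_add_finrank_ker T]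
  refine add_le_add ?_ ?_
  · exact (Submodule.finrank_mono hr).trans (Submodule.finrank_map_le _ _)
  · rw [e2.finrank_eq]
    exact (Submodule.finrank_mono hk).trans (Submodule.finrank_map_le _ _)

section Ext
variable {F : Type*} [Field F] {M : Type*} [AddCommGroup M] [Module F M]

/-- the homomorphism of the free group to affine permutations -/
def affHom {n : ℕ} (σ : Representation F G M) (π : FreeGroup (Fin n) →* G) (v : Fin n → M) :
    FreeGroup (Fin n) →* Equiv.Perm M :=
  FreeGroup.lift fun j => aff σ (π (FreeGroup.of j)) (v j)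

theorem affHom_eq {n : ℕ} (σ : Representation F G M) (π : FreeGroup (Fin n) →* G) (v : Fin n → M)
    (w : FreeGroup (Fin n)) : affHom σ π v w = aff σ (π w) (affHom σ π v w 0) := by
  have key : ∀ w, ∃ m, affHom σ π v w = aff σ (π w) m := by
    intro w
    induction w using FreeGroup.induction_on with
    | C1 => exact ⟨0, by rw [map_one, map_one, aff_one]⟩
    | of j => exact ⟨v j, by rw [affHom, FreeGroup.lift_apply_of]⟩
    | inv_of j h =>
      obtain ⟨m, hm⟩ := h
      exact ⟨_, by rw [map_inv, map_inv, hm, aff_inv]⟩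
    | mul u w hu hw =>
      obtain ⟨m, hm⟩ := hu
      obtain ⟨m', hm'⟩ := hw
      exact ⟨_, by rw [map_mul, map_mul, hm, hm', aff_mul]⟩
  obtain ⟨m, hm⟩ := key w
  have : affHom σ π v w 0 = m := by rw [hm, aff_apply, map_zero, zero_add]
  rw [this]; exact hm

/-- the crossed homomorphism of the free group with prescribed values -/
def freeC {n : ℕ} (σ : Representation F G M) (π : FreeGroup (Fin n) →* G) (v : Fin n → M)
    (w : FreeGroup (Fin n)) : M := affHom σ π v w 0

theorem freeC_of {n : ℕ} (σ : Representation F G M) (π : FreeGroup (Fin n) →* G) (v : Fin n → M)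
    (j : Fin n) : freeC σ π v (FreeGroup.of j) = v j := by
  rw [freeC, affHom, FreeGroup.lift_apply_of, aff_apply, map_zero, zero_add]

theorem freeC_mul {n : ℕ} (σ : Representation F G M) (π : FreeGroup (Fin n) →* G) (v : Fin n → M)
    (u w : FreeGroup (Fin n)) : freeC σ π v (u * w) = freeC σ π v u + σ (π u) (freeC σ π v w) := by
  show affHom σ π v (u * w) 0 = _
  rw [map_mul, Equiv.Perm.mul_apply, affHom_eq σ π v u, aff_apply]
  rw [add_comm]
  rfl

/-- extension of a solution on the relators to a crossed homomorphism -/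
theorem exists_Zc {m : ℕ} (σ : Representation F G M) (r : Fin m → FreeGroup (Fin (m + 1)))
    (π : FreeGroup (Fin (m + 1)) →* G) (hπ : IsPresentation r π) (v : Fin (m + 1) → M)
    (hv : ∀ p, freeC σ π v (r p) = 0) :
    ∃ c ∈ Zc σ, ∀ j, c (π (FreeGroup.of j)) = v j := by
  have hker : π.ker ≤ (affHom σ π v).ker := by
    rw [hπ.2]
    refine Subgroup.normalClosure_le_normal ?_
    rintro _ ⟨p, rfl⟩
    have h1 : π (r p) = 1 := by
      have : r p ∈ π.ker := by
        rw [hπ.2]; exact Subgroup.subset_normalClosure ⟨p, rfl⟩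
      exact this
    show affHom σ π v (r p) = 1
    rw [affHom_eq, h1]
    have := hv p
    rw [freeC] at this
    rw [this, aff_one]
  have hwd : ∀ u w, π u = π w → freeC σ π v u = freeC σ π v w := by
    intro u w h
    have h1 : u⁻¹ * w ∈ π.ker := by
      rw [MonoidHom.mem_ker, map_mul, map_inv, h, inv_mul_cancel]
    have h2 := hker h1
    rw [MonoidHom.mem_ker, map_mul, map_inv, inv_mul_eq_one] at h2
    rw [freeC, freeC, h2]
  let s := Function.surjInv hπ.1
  have hs : ∀ g, π (s g) = g := Function.surjInv_eq hπ.1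
  refine ⟨fun g => freeC σ π v (s g), ?_, ?_⟩
  · intro g h
    have : freeC σ π v (s (g * h)) = freeC σ π v (s g * s h) := hwd _ _ (by rw [hs, map_mul, hs, hs])
    show freeC σ π v (s (g * h)) = freeC σ π v (s g) + σ g (freeC σ π v (s h))
    rw [this, freeC_mul, hs]
  · intro j
    show freeC σ π v (s (π (FreeGroup.of j))) = v j
    rw [hwd _ (FreeGroup.of j) (hs _), freeC_of]

end Ext

/-- if the cohomology with sequence coefficients is spanned by `D`, then the degree of Wada's invariant is at
most the dimension of `D` -/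
theorem A8 {m : ℕ} (ρ : G →* SL(2, ℂ)) (α : G →* Multiplicative ℤ)
    (r : Fin m → FreeGroup (Fin (m + 1))) (π : FreeGroup (Fin (m + 1)) →* G) (hπ : IsPresentation r π)
    (k : Fin (m + 1)) (hden : wadaDen ρ α π k ≠ 0)
    (D : Submodule ℂ (G → ℤ → Fin 2 → ℂ)) [FiniteDimensional ℂ D]
    (hspan : ∀ c ∈ Zc (seqRep (repV ρ) α), ∃ d ∈ D, ∃ m : ℤ → Fin 2 → ℂ, c = d + cob (seqRep (repV ρ) α) m) :
    wadaNum ρ α r π k ≠ 0 ∧ breadth (wadaNum ρ α r π k) ≤ finrank ℂ D + breadth (wadaDen ρ α π k) := by
  classical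
  set σ := seqRep (repV ρ) α with hσ
  set t := π (FreeGroup.of k) with ht
  -- the kernel of x_k - 1
  let A2 := wadaPhi ρ α π (MonoidAlgebra.single (FreeGroup.of k) 1 - 1)
  let K2 : Submodule ℂ (ℤ → Fin 2 → ℂ) := LinearMap.ker (lactL A2)
  have fK2 : FiniteDimensional ℂ K2 := A8d A2 K2 (mem_ker_lactL A2) hden
  have dK2 : (finrank ℂ K2 : ℤ) = breadth (wadaDen ρ α π k) := (A8c A2 K2 (mem_ker_lactL A2)).2
  have hK2 : ∀ x, σ t x = x → x ∈ K2 := by
    intro x hx
    rw [LinearMap.mem_ker]
    show lact A2 x = 0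
    have h1 : wadaPhi ρ α π (MonoidAlgebra.single (FreeGroup.of k) 1) =
        A2 + wadaPhi ρ α π (MonoidAlgebra.single 1 1) := by
      show _ = wadaPhi ρ α π (MonoidAlgebra.single (FreeGroup.of k) 1 - 1) + _
      rw [← map_add, ← MonoidAlgebra.one_def, sub_add_cancel]
    have h2 := lact_wadaPhi_single ρ α π (FreeGroup.of k) x
    rw [h1, lact_add, lact_wadaPhi_single, map_one, map_one, Module.End.one_apply] at h2
    have h3 : lact A2 x + x = x := h2.trans hx
    exact add_eq_right.1 h3
  obtain ⟨fZ, dZ⟩ := finrank_Zt_le σ t D hspan K2 hK2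
  -- the Fox matrix
  let A : Matrix (Fin m × Fin 2) (Fin m × Fin 2) ℂ[T;T⁻¹] := Matrix.of fun (p q : Fin m × Fin 2) =>
    wadaPhi ρ α π (fox (k.succAbove q.1) (r p.1)) p.2 q.2
  let K : Submodule ℂ (ℤ → (Fin m × Fin 2) → ℂ) := LinearMap.ker (lactL A)
  have hval : ∀ (c : FreeGroup (Fin (m + 1)) → ℤ → Fin 2 → ℂ), c ∈ Zc (σ.comp π) →
      c (FreeGroup.of k) = 0 → ∀ (p : Fin m) i s, c (r p) i s =
        lact A (fun i q => c (FreeGroup.of (k.succAbove q.1)) i q.2) i (p, s) := by
    intro c hc h0 p i s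
    rw [A8b ρ α π c hc (r p) i s, Fin.sum_univ_succAbove _ k, h0]
    have hz : lact (wadaPhi ρ α π (fox k (r p))) (0 : ℤ → Fin 2 → ℂ) i s = 0 := by
      have : lactL (wadaPhi ρ α π (fox k (r p))) 0 = 0 := map_zero _
      exact congrFun (congrFun this i) s
    rw [hz, zero_add]
    rw [lact, Fintype.sum_prod_type]
    rfl
  let Ψ : Zt σ t →ₗ[ℂ] K :=
    { toFun := fun c => ⟨fun i q => c.1 (π (FreeGroup.of (k.succAbove q.1))) i q.2, by
        rw [LinearMap.mem_ker]
        funext i p
        have h := hval (fun w => c.1 (π w)) (by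
          intro u w
          show c.1 (π (u * w)) = _
          rw [map_mul, c.2.1]
          rfl) c.2.2 p.1 i p.2
        have h1 : c.1 (π (r p.1)) = 0 := by
          have : π (r p.1) = 1 := by
            have : r p.1 ∈ π.ker := by
              rw [hπ.2]; exact Subgroup.subset_normalClosure ⟨p.1, rfl⟩
            exact this
          rw [this, Zc_one c.2.1]
        have h2 : c.1 (π (r p.1)) i p.2 = 0 := by rw [h1]; rfl
        exact h.symm.trans h2⟩
      map_add' := fun c d => rfl
      map_smul' := fun a c => rfl }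
  have hΨ : Function.Surjective Ψ := by
    rintro ⟨f, hf⟩
    let v : Fin (m + 1) → ℤ → Fin 2 → ℂ := k.insertNth 0 fun q i s => f i (q, s)
    have hvk : v k = 0 := Fin.insertNth_apply_same k _ _
    have hvq : ∀ q, v (k.succAbove q) = fun i s => f i (q, s) := fun q =>
      Fin.insertNth_apply_succAbove k _ _ q
    have hc0 : freeC σ π v ∈ Zc (σ.comp π) := fun u w => freeC_mul σ π v u w
    have hrel : ∀ p, freeC σ π v (r p) = 0 := by
      intro p
      funext i s
      rw [hval (freeC σ π v) hc0 (by rw [freeC_of, hvk]) p i s]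
      have : (fun i (q : Fin m × Fin 2) => freeC σ π v (FreeGroup.of (k.succAbove q.1)) i q.2) = f := by
        funext i q
        rw [freeC_of, hvq]
      rw [this]
      exact congrFun (congrFun hf i) (p, s)
    obtain ⟨c, hc, hcv⟩ := exists_Zc σ r π hπ v hrel
    refine ⟨⟨c, hc, by rw [ht, hcv, hvk]⟩, ?_⟩
    apply Subtype.ext
    funext i q
    show c (π (FreeGroup.of (k.succAbove q.1))) i q.2 = f i q
    rw [hcv, hvq]
  have fK : FiniteDimensional ℂ K := Module.Finite.of_surjective Ψ hΨ
  have dK : finrank ℂ K ≤ finrank ℂ (Zt σ t) := LinearMap.finrank_le_finrank_of_surjective hΨ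
  obtain ⟨h1, h2⟩ := A8c A K (mem_ker_lactL A)
  refine ⟨h1, ?_⟩
  have h3 : breadth (wadaNum ρ α r π k) = (finrank ℂ K : ℤ) := h2.symm
  rw [h3, ← dK2]
  exact_mod_cast dK.trans dZ

end Pool.Agent.Helper95.DFJ

end

end

section

/-!
# DFJ: the degree of Wada's invariant does not depend on the presentation nor on the column

If the cohomology `H¹` with coefficients in two-sided sequences is finite dimensional, then for
every deficiency one presentation `(r, π)` of the group and every `k` with nonzero denominator the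
numerator of Wada's invariant is nonzero and
`breadth numerator - breadth denominator = dim H¹ - dim H⁰`.
-/

noncomputable section

namespace Pool.Agent.Helper35.DFJ

open Multiplicative Module Pool.Agent.Helper95.DFJ
open scoped LaurentPolynomial MatrixGroups

/-- a nonzero Laurent polynomial acts surjectively on two-sided sequences -/
theorem shAlg_surjective {a : ℂ[T;T⁻¹]} (ha : a ≠ 0) (h : ℤ → ℂ) : ∃ g, shAlg a g = h := by
  let φ : ℂ[T;T⁻¹] →ₗ[ℂ] ℂ := pair (fun n => h (-n))
  let L : ℂ[T;T⁻¹] →ₗ[ℂ] ℂ[T;T⁻¹] := LinearMap.mulLeft ℂ a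
  have hL : Function.Injective L := mul_right_injective₀ ha
  obtain ⟨ψ, hψ⟩ := LinearMap.dualMap_surjective_of_injective hL φ
  refine ⟨fun n => ψ (LaurentPolynomial.T (-n)), ?_⟩
  funext i
  rw [shAlg_apply]
  have key : ∀ b : ℂ[T;T⁻¹], b.coeff.sum (fun e r => r * ψ (LaurentPolynomial.T (-(i - e)))) =
      ψ (b * LaurentPolynomial.T (-i)) := by
    intro b
    induction b using LaurentPolynomial.induction_on' with
    | add p q hp hq =>
      rw [add_mul, map_add, ← hp, ← hq]
      change (p.coeff + q.coeff).sum _ = _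
      rw [Finsupp.sum_add_index']
      · intro e
        rw [zero_mul]
      · intro e x y
        rw [add_mul]
    | C_mul_T n c =>
      rw [mul_assoc, ← LaurentPolynomial.T_add,
        ← LaurentPolynomial.smul_eq_C_mul c (LaurentPolynomial.T (n + -i)), map_smul,
        ← LaurentPolynomial.single_eq_C_mul_T]
      change (Finsupp.single n c).sum _ = _
      rw [Finsupp.sum_single_index (by rw [zero_mul]), smul_eq_mul,
        show n + -i = -(i - n) by ring]
  rw [key a]
  have h1 : ψ (L (LaurentPolynomial.T (-i))) = φ (LaurentPolynomial.T (-i)) :=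
    LinearMap.congr_fun hψ _
  have h2 : φ (LaurentPolynomial.T (-i)) = h i := by
    have := pair_T (fun n => h (-n)) (-i)
    rw [neg_neg] at this
    exact this
  rw [← h2, ← h1]
  rfl

/-- a square Laurent matrix with nonzero determinant acts surjectively on sequences -/
theorem lact_surjective {ι : Type*} [Fintype ι] [DecidableEq ι] (A : Matrix ι ι ℂ[T;T⁻¹])
    (hA : A.det ≠ 0) (h : ℤ → ι → ℂ) : ∃ f, lact A f = h := by
  choose g hg using fun q : ι => shAlg_surjective hA (fun i => h i q)
  refine ⟨lact A.adjugate (fun i q => g q i), ?_⟩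
  rw [← lact_mul, Matrix.mul_adjugate]
  funext i p
  rw [lact_eq, Finset.sum_eq_single p]
  · rw [Matrix.smul_apply, Matrix.one_apply_eq, smul_eq_mul, mul_one]
    exact congrFun (hg p) i
  · intro q _ hq
    rw [Matrix.smul_apply, Matrix.one_apply_ne (Ne.symm hq), smul_zero, map_zero]
    rfl
  · intro hp
    exact absurd (Finset.mem_univ p) hp

section LA

variable {F : Type*} [Field F] {M : Type*} [AddCommGroup M] [Module F M] {G : Type*} [Group G]

/-- first cohomology -/
def H1 (σ : Representation F G M) : Submodule F ((G → M) ⧸ LinearMap.range (cobL8 σ)) :=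
  (Zc σ).map (LinearMap.range (cobL8 σ)).mkQ

/-- invariants -/
def H0 (σ : Representation F G M) : Submodule F M := LinearMap.ker (cobL8 σ)

/-- exact dimension count for crossed homomorphisms vanishing at `t` -/
theorem finrank_Zt_eq (σ : Representation F G M) (t : G) [FiniteDimensional F (H1 σ)]
    (hsurj : ∀ y : M, ∃ x, σ t x - x = y)
    (K : Submodule F M) [FiniteDimensional F K] (hK : ∀ m, m ∈ K ↔ σ t m = m) :
    FiniteDimensional F (Zt σ t) ∧
      finrank F (Zt σ t) + finrank F (H0 σ) = finrank F (H1 σ) + finrank F K := by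
  let B : Submodule F (G → M) := LinearMap.range (cobL8 σ)
  let T : Zt σ t →ₗ[F] (G → M) ⧸ B := B.mkQ.comp (Zt σ t).subtype
  have hr : LinearMap.range T = H1 σ := by
    apply le_antisymm
    · rintro _ ⟨c, rfl⟩
      exact ⟨c.1, c.2.1, rfl⟩
    · rintro _ ⟨c, hc, rfl⟩
      obtain ⟨x, hx⟩ := hsurj (c t)
      refine ⟨⟨c - cob σ x, sub_mem hc (cob_mem σ x), ?_⟩, ?_⟩
      · change c t - (σ t x - x) = 0
        rw [hx, sub_self]
      · change B.mkQ (c - cob σ x) = B.mkQ c
        rw [map_sub]
        have : B.mkQ (cob σ x) = 0 := by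
          rw [Submodule.mkQ_apply, Submodule.Quotient.mk_eq_zero]
          exact ⟨x, rfl⟩
        rw [this, sub_zero]
  have hk : (LinearMap.ker T).map (Zt σ t).subtype = K.map (cobL8 σ) := by
    apply le_antisymm
    · rintro _ ⟨c, hc, rfl⟩
      have h1 : B.mkQ c.1 = 0 := hc
      rw [Submodule.mkQ_apply, Submodule.Quotient.mk_eq_zero] at h1
      obtain ⟨m, hm⟩ := h1
      refine ⟨m, (hK m).2 ?_, hm⟩
      have h2 : cob σ m t = 0 := by
        have : cobL8 σ m t = c.1 t := congrFun hm t
        rw [c.2.2] at this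
        exact this
      exact sub_eq_zero.1 h2
    · rintro _ ⟨m, hm, rfl⟩
      have h2 : cob σ m t = 0 := by
        change σ t m - m = 0
        rw [(hK m).1 hm, sub_self]
      refine ⟨⟨cob σ m, cob_mem σ m, h2⟩, ?_, rfl⟩
      change B.mkQ (cob σ m) = 0
      rw [Submodule.mkQ_apply, Submodule.Quotient.mk_eq_zero]
      exact ⟨m, rfl⟩
  have f1 : FiniteDimensional F (LinearMap.range T) := by rw [hr]; infer_instance
  have f2 : FiniteDimensional F ((LinearMap.ker T).map (Zt σ t).subtype) := by
    rw [hk]; infer_instance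
  have e2 : (LinearMap.ker T) ≃ₗ[F] (LinearMap.ker T).map (Zt σ t).subtype :=
    Submodule.equivMapOfInjective _ (Submodule.injective_subtype _) _
  have f3 : FiniteDimensional F (LinearMap.ker T) := Module.Finite.equiv e2.symm
  have f4 : FiniteDimensional F (Zt σ t ⧸ LinearMap.ker T) :=
    Module.Finite.equiv (LinearMap.quotKerEquivRange T).symm
  have f5 : FiniteDimensional F (Zt σ t) := Module.Finite.of_submodule_quotient (LinearMap.ker T)
  refine ⟨f5, ?_⟩
  have h0le : H0 σ ≤ K := by
    intro m hm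
    rw [hK]
    have : cobL8 σ m t = 0 := congrFun (LinearMap.mem_ker.1 hm) t
    exact sub_eq_zero.1 this
  -- the restriction of the coboundary map to `K`
  let C : K →ₗ[F] (G → M) := (cobL8 σ).domRestrict K
  have hC : LinearMap.range C = K.map (cobL8 σ) := by
    rw [LinearMap.range_domRestrict]
  have e3 : LinearMap.ker C ≃ₗ[F] H0 σ := by
    have : LinearMap.ker C = (H0 σ).comap K.subtype := rfl
    rw [this]
    exact Submodule.comapSubtypeEquivOfLe h0le
  have d1 := LinearMap.finrank_range_add_finrank_ker T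
  have d2 := LinearMap.finrank_range_add_finrank_ker C
  rw [hr, e2.finrank_eq, hk] at d1
  rw [hC, e3.finrank_eq] at d2
  have e : finrank F (Zt σ t) = finrank F (H1 σ) + finrank F (K.map (cobL8 σ)) := d1.symm
  rw [e, ← d2]
  ring

theorem H1_le (σ : Representation F G M) (D : Submodule F (G → M))
    (hspan : ∀ c ∈ Zc σ, ∃ d ∈ D, ∃ m : M, c = d + cob σ m) :
    H1 σ ≤ D.map (LinearMap.range (cobL8 σ)).mkQ := by
  rintro _ ⟨c, hc, rfl⟩
  obtain ⟨d, hd, m, hm⟩ := hspan c hc
  refine ⟨d, hd, ?_⟩
  rw [hm, map_add]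
  have : (LinearMap.range (cobL8 σ)).mkQ (cob σ m) = 0 := by
    rw [Submodule.mkQ_apply, Submodule.Quotient.mk_eq_zero]
    exact ⟨m, rfl⟩
  rw [this, add_zero]

theorem H1_finite (σ : Representation F G M) (D : Submodule F (G → M)) [FiniteDimensional F D]
    (hspan : ∀ c ∈ Zc σ, ∃ d ∈ D, ∃ m : M, c = d + cob σ m) : FiniteDimensional F (H1 σ) :=
  Submodule.finiteDimensional_of_le (H1_le σ D hspan)

end LA

section Main

variable {G : Type*} [Group G] {m : ℕ}

/-- the space of crossed homomorphisms vanishing at `x_k` is the kernel of the Fox matrix -/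
theorem finrank_Zt_num (ρ : G →* SL(2, ℂ)) (α : G →* Multiplicative ℤ)
    (r : Fin m → FreeGroup (Fin (m + 1))) (π : FreeGroup (Fin (m + 1)) →* G)
    (hπ : IsPresentation r π) (k : Fin (m + 1))
    [FiniteDimensional ℂ (Zt (seqRep (repV ρ) α) (π (FreeGroup.of k)))] :
    wadaNum ρ α r π k ≠ 0 ∧ breadth (wadaNum ρ α r π k) =
      finrank ℂ (Zt (seqRep (repV ρ) α) (π (FreeGroup.of k))) := by
  classical
  set σ := seqRep (repV ρ) α with hσ
  set t := π (FreeGroup.of k) with ht
  let A : Matrix (Fin m × Fin 2) (Fin m × Fin 2) ℂ[T;T⁻¹] := Matrix.of fun (p q : Fin m × Fin 2) =>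
    wadaPhi ρ α π (fox (k.succAbove q.1) (r p.1)) p.2 q.2
  let K : Submodule ℂ (ℤ → (Fin m × Fin 2) → ℂ) := LinearMap.ker (lactL A)
  have hval : ∀ (c : FreeGroup (Fin (m + 1)) → ℤ → Fin 2 → ℂ), c ∈ Zc (σ.comp π) →
      c (FreeGroup.of k) = 0 → ∀ (p : Fin m) i s, c (r p) i s =
        lact A (fun i q => c (FreeGroup.of (k.succAbove q.1)) i q.2) i (p, s) := by
    intro c hc h0 p i s
    rw [A8b ρ α π c hc (r p) i s, Fin.sum_univ_succAbove _ k, h0]
    have hz : lact (wadaPhi ρ α π (fox k (r p))) (0 : ℤ → Fin 2 → ℂ) i s = 0 := by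
      have : lactL (wadaPhi ρ α π (fox k (r p))) 0 = 0 := map_zero _
      exact congrFun (congrFun this i) s
    rw [hz, zero_add]
    rw [lact, Fintype.sum_prod_type]
    rfl
  let Ψ : Zt σ t →ₗ[ℂ] K :=
    { toFun := fun c => ⟨fun i q => c.1 (π (FreeGroup.of (k.succAbove q.1))) i q.2, by
        rw [LinearMap.mem_ker]
        funext i p
        have h := hval (fun w => c.1 (π w)) (by
          intro u w
          show c.1 (π (u * w)) = _
          rw [map_mul, c.2.1]
          rfl) c.2.2 p.1 i p.2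
        have h1 : c.1 (π (r p.1)) = 0 := by
          have : π (r p.1) = 1 := by
            have : r p.1 ∈ π.ker := by
              rw [hπ.2]; exact Subgroup.subset_normalClosure ⟨p.1, rfl⟩
            exact this
          rw [this, Zc_one c.2.1]
        have h2 : c.1 (π (r p.1)) i p.2 = 0 := by rw [h1]; rfl
        exact h.symm.trans h2⟩
      map_add' := fun c d => rfl
      map_smul' := fun a c => rfl }
  have hΨ : Function.Surjective Ψ := by
    rintro ⟨f, hf⟩
    let v : Fin (m + 1) → ℤ → Fin 2 → ℂ := k.insertNth 0 fun q i s => f i (q, s)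
    have hvk : v k = 0 := Fin.insertNth_apply_same k _ _
    have hvq : ∀ q, v (k.succAbove q) = fun i s => f i (q, s) := fun q =>
      Fin.insertNth_apply_succAbove k _ _ q
    have hc0 : freeC σ π v ∈ Zc (σ.comp π) := fun u w => freeC_mul σ π v u w
    have hrel : ∀ p, freeC σ π v (r p) = 0 := by
      intro p
      funext i s
      rw [hval (freeC σ π v) hc0 (by rw [freeC_of, hvk]) p i s]
      have : (fun i (q : Fin m × Fin 2) => freeC σ π v (FreeGroup.of (k.succAbove q.1)) i q.2) = f := by
        funext i q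
        rw [freeC_of, hvq]
      rw [this]
      exact congrFun (congrFun hf i) (p, s)
    obtain ⟨c, hc, hcv⟩ := exists_Zc σ r π hπ v hrel
    refine ⟨⟨c, hc, by rw [ht, hcv, hvk]⟩, ?_⟩
    apply Subtype.ext
    funext i q
    show c (π (FreeGroup.of (k.succAbove q.1))) i q.2 = f i q
    rw [hcv, hvq]
  have hinj : Function.Injective Ψ := by
    rw [injective_iff_map_eq_zero]
    intro c hc
    apply Subtype.ext
    have h1 : ∀ j, c.1 (π (FreeGroup.of j)) = 0 := by
      intro j
      by_cases hj : j = k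
      · rw [hj]
        exact c.2.2
      · obtain ⟨q, rfl⟩ := Fin.exists_succAbove_eq hj
        funext i s
        have h2 := congrArg Subtype.val hc
        exact congrFun (congrFun h2 i) (q, s)
    have h2 : (fun w => c.1 (π w)) ∈ Zc (σ.comp π) := by
      intro u w
      show c.1 (π (u * w)) = _
      rw [map_mul, c.2.1]
      rfl
    have h3 : (fun w => c.1 (π w)) = 0 := by
      refine Zc_ext h2 (zero_mem _) (Set.range FreeGroup.of) (FreeGroup.closure_range_of _) ?_
      rintro _ ⟨j, rfl⟩
      exact h1 j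
    funext g
    obtain ⟨w, rfl⟩ := hπ.1 g
    exact congrFun h3 w
  let e := LinearEquiv.ofBijective Ψ ⟨hinj, hΨ⟩
  have fK : FiniteDimensional ℂ K := Module.Finite.equiv e
  obtain ⟨h1, h2⟩ := A8c A K (mem_ker_lactL A)
  refine ⟨h1, ?_⟩
  have h3 : breadth (wadaNum ρ α r π k) = (finrank ℂ K : ℤ) := h2.symm
  rw [h3, e.finrank_eq]

/-- **The degree of Wada's invariant.** For every deficiency one presentation of `G` and every
generator with nonzero denominator, the numerator is nonzero and the degree of the quotient is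
`dim H¹ - dim H⁰`; in particular it depends neither on the presentation nor on the generator. -/
theorem wada_degree (ρ : G →* SL(2, ℂ)) (α : G →* Multiplicative ℤ)
    [FiniteDimensional ℂ (H1 (seqRep (repV ρ) α))]
    (r : Fin m → FreeGroup (Fin (m + 1))) (π : FreeGroup (Fin (m + 1)) →* G)
    (hπ : IsPresentation r π) (k : Fin (m + 1)) (hden : wadaDen ρ α π k ≠ 0) :
    wadaNum ρ α r π k ≠ 0 ∧ breadth (wadaNum ρ α r π k) - breadth (wadaDen ρ α π k) =
      finrank ℂ (H1 (seqRep (repV ρ) α)) - finrank ℂ (H0 (seqRep (repV ρ) α)) := by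
  set σ := seqRep (repV ρ) α with hσ
  set t := π (FreeGroup.of k) with ht
  let A2 := wadaPhi ρ α π (MonoidAlgebra.single (FreeGroup.of k) 1 - 1)
  let K2 : Submodule ℂ (ℤ → Fin 2 → ℂ) := LinearMap.ker (lactL A2)
  have fK2 : FiniteDimensional ℂ K2 := A8d A2 K2 (mem_ker_lactL A2) hden
  have dK2 : (finrank ℂ K2 : ℤ) = breadth (wadaDen ρ α π k) := (A8c A2 K2 (mem_ker_lactL A2)).2
  have hact : ∀ x, lact A2 x = σ t x - x := by
    intro x
    have h1 : wadaPhi ρ α π (MonoidAlgebra.single (FreeGroup.of k) 1) =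
        A2 + wadaPhi ρ α π (MonoidAlgebra.single 1 1) := by
      show _ = wadaPhi ρ α π (MonoidAlgebra.single (FreeGroup.of k) 1 - 1) + _
      rw [← map_add, ← MonoidAlgebra.one_def, sub_add_cancel]
    have h2 := lact_wadaPhi_single ρ α π (FreeGroup.of k) x
    rw [h1, lact_add, lact_wadaPhi_single, map_one, map_one, Module.End.one_apply] at h2
    exact eq_sub_of_add_eq h2
  have hK2 : ∀ x, x ∈ K2 ↔ σ t x = x := by
    intro x
    rw [LinearMap.mem_ker]
    show lact A2 x = 0 ↔ _
    rw [hact, sub_eq_zero]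
  have hsurj : ∀ y : ℤ → Fin 2 → ℂ, ∃ x, σ t x - x = y := by
    intro y
    obtain ⟨x, hx⟩ := lact_surjective A2 hden y
    exact ⟨x, by rw [← hact, hx]⟩
  obtain ⟨fZ, dZ⟩ := finrank_Zt_eq σ t hsurj K2 hK2
  obtain ⟨h1, h2⟩ := finrank_Zt_num ρ α r π hπ k
  refine ⟨h1, ?_⟩
  rw [h2, ← dK2]
  have h3 : (finrank ℂ (Zt σ t) : ℤ) + finrank ℂ (H0 σ) = finrank ℂ (H1 σ) + finrank ℂ K2 := by
    exact_mod_cast dZ
  linarith

/-- The degree of Wada's invariant is a well defined number `δ`, at most `finrank D` if the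
cohomology is spanned by `D`. -/
theorem exists_degree (ρ : G →* SL(2, ℂ)) (α : G →* Multiplicative ℤ)
    (D : Submodule ℂ (G → ℤ → Fin 2 → ℂ)) [FiniteDimensional ℂ D]
    (hspan : ∀ c ∈ Zc (seqRep (repV ρ) α), ∃ d ∈ D, ∃ m : ℤ → Fin 2 → ℂ,
      c = d + cob (seqRep (repV ρ) α) m) :
    ∃ δ : ℤ, δ ≤ finrank ℂ D ∧ ∀ (m : ℕ) (r : Fin m → FreeGroup (Fin (m + 1)))
      (π : FreeGroup (Fin (m + 1)) →* G), IsPresentation r π → ∀ k : Fin (m + 1),
      wadaDen ρ α π k ≠ 0 → wadaNum ρ α r π k ≠ 0 ∧
        breadth (wadaNum ρ α r π k) - breadth (wadaDen ρ α π k) = δ := by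
  have f1 : FiniteDimensional ℂ (H1 (seqRep (repV ρ) α)) := H1_finite _ D hspan
  refine ⟨finrank ℂ (H1 (seqRep (repV ρ) α)) - finrank ℂ (H0 (seqRep (repV ρ) α)), ?_,
    fun m r π hπ k hden => wada_degree ρ α r π hπ k hden⟩
  have h1 : finrank ℂ (H1 (seqRep (repV ρ) α)) ≤ finrank ℂ D :=
    (Submodule.finrank_mono (H1_le _ D hspan)).trans (Submodule.finrank_map_le _ _)
  have h2 : (finrank ℂ (H1 (seqRep (repV ρ) α)) : ℤ) ≤ finrank ℂ D := by exact_mod_cast h1
  have h3 : (0 : ℤ) ≤ finrank ℂ (H0 (seqRep (repV ρ) α)) := Int.natCast_nonneg _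
  linarith

end Main

end Pool.Agent.Helper35.DFJ

end

end
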