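import Mathlib

/-!
PROJECT DFJ (MP_03f222_gt): Fox calculus. For a homomorphism `φ` from the free group to the
multiplicative monoid of a ring `A`, `fox φ j w` is the image under `φ` of the Fox derivative
`∂w/∂x_j`; for `A = ℤ[F]` and `φ = of` it is the Fox derivative itself.
-/

namespace Pool.Agent.Helper35.DFJ

variable {ι : Type*} [DecidableEq ι] {A : Type*} [Ring A]

/-- Fox derivative of a word -/
def foxList (φ : FreeGroup ι →* A) (j : ι) : List (ι × Bool) → A
  | [] => 0
  | (i, true) :: w => (if i = j then 1 else 0) + φ (FreeGroup.of i) * foxList φ j w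
  | (i, false) :: w =>
      (if i = j then -φ (FreeGroup.of i)⁻¹ else 0) + φ (FreeGroup.of i)⁻¹ * foxList φ j w

/-- the image under `φ` of the Fox derivative `∂w/∂x_j` -/
def fox (φ : FreeGroup ι →* A) (j : ι) (w : FreeGroup ι) : A := foxList φ j w.toWord

theorem foxList_append (φ : FreeGroup ι →* A) (j : ι) (u v : List (ι × Bool)) :
    foxList φ j (u ++ v) = foxList φ j u + φ (FreeGroup.mk u) * foxList φ j v := by
  induction u with
  | nil =>
    change foxList φ j v = 0 + φ 1 * foxList φ j v
    rw [map_one, one_mul, zero_add]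
  | cons x u ih =>
    obtain ⟨i, b⟩ := x
    cases b with
    | true =>
      have h : FreeGroup.mk ((i, true) :: u) = FreeGroup.of i * FreeGroup.mk u := rfl
      rw [List.cons_append, foxList, foxList, ih, h, map_mul]
      noncomm_ring
    | false =>
      have h : FreeGroup.mk ((i, false) :: u) = (FreeGroup.of i)⁻¹ * FreeGroup.mk u := rfl
      rw [List.cons_append, foxList, foxList, ih, h, map_mul]
      noncomm_ring

theorem foxList_pair (φ : FreeGroup ι →* A) (j : ι) (x : ι) (b : Bool) (v : List (ι × Bool)) :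
    foxList φ j ((x, b) :: (x, !b) :: v) = foxList φ j v := by
  have h1 : φ (FreeGroup.of x) * φ (FreeGroup.of x)⁻¹ = 1 := by
    rw [← map_mul, mul_inv_cancel, map_one]
  have h2 : φ (FreeGroup.of x)⁻¹ * φ (FreeGroup.of x) = 1 := by
    rw [← map_mul, inv_mul_cancel, map_one]
  cases b with
  | true =>
    change (if x = j then 1 else 0) + φ (FreeGroup.of x) *
      ((if x = j then -φ (FreeGroup.of x)⁻¹ else 0) + φ (FreeGroup.of x)⁻¹ * foxList φ j v) = _
    rw [mul_add, ← mul_assoc, h1, one_mul, ← add_assoc]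
    split
    · rw [mul_neg, h1, add_neg_cancel, zero_add]
    · rw [mul_zero, add_zero, zero_add]
  | false =>
    change (if x = j then -φ (FreeGroup.of x)⁻¹ else 0) + φ (FreeGroup.of x)⁻¹ *
      ((if x = j then 1 else 0) + φ (FreeGroup.of x) * foxList φ j v) = _
    rw [mul_add, ← mul_assoc, h2, one_mul, ← add_assoc]
    split
    · rw [mul_one, neg_add_cancel, zero_add]
    · rw [mul_zero, add_zero, zero_add]

theorem foxList_step (φ : FreeGroup ι →* A) (j : ι) {u v : List (ι × Bool)}
    (h : FreeGroup.Red.Step u v) : foxList φ j u = foxList φ j v := by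
  obtain ⟨⟩ := h
  rw [foxList_append, foxList_append, foxList_pair]

theorem foxList_red (φ : FreeGroup ι →* A) (j : ι) {u v : List (ι × Bool)}
    (h : FreeGroup.Red u v) : foxList φ j u = foxList φ j v := by
  induction h with
  | refl => rfl
  | tail _ h ih => rw [ih, foxList_step φ j h]

theorem fox_mk (φ : FreeGroup ι →* A) (j : ι) (u : List (ι × Bool)) :
    fox φ j (FreeGroup.mk u) = foxList φ j u := by
  rw [fox, FreeGroup.toWord_mk]
  exact (foxList_red φ j FreeGroup.reduce.red).symm

theorem fox_mul (φ : FreeGroup ι →* A) (j : ι) (u v : FreeGroup ι) :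
    fox φ j (u * v) = fox φ j u + φ u * fox φ j v := by
  obtain ⟨u, rfl⟩ := Quot.exists_rep u
  obtain ⟨v, rfl⟩ := Quot.exists_rep v
  change fox φ j (FreeGroup.mk u * FreeGroup.mk v) = fox φ j (FreeGroup.mk u) +
    φ (FreeGroup.mk u) * fox φ j (FreeGroup.mk v)
  rw [FreeGroup.mul_mk, fox_mk, fox_mk, fox_mk, foxList_append]

theorem fox_one (φ : FreeGroup ι →* A) (j : ι) : fox φ j 1 = 0 := by
  have := fox_mk φ j []
  exact this

theorem fox_of (φ : FreeGroup ι →* A) (i j : ι) :
    fox φ j (FreeGroup.of i) = if i = j then 1 else 0 := by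
  change fox φ j (FreeGroup.mk [(i, true)]) = _
  rw [fox_mk, foxList, foxList, mul_zero, add_zero]

theorem fox_inv (φ : FreeGroup ι →* A) (j : ι) (u : FreeGroup ι) :
    fox φ j u⁻¹ = -(φ u⁻¹ * fox φ j u) := by
  have h := fox_mul φ j u⁻¹ u
  rw [inv_mul_cancel, fox_one] at h
  exact eq_neg_of_add_eq_zero_left h.symm

theorem map_foxList {B : Type*} [Ring B] (ψ : A →+* B) (φ : FreeGroup ι →* A) (j : ι)
    (u : List (ι × Bool)) :
    ψ (foxList φ j u) = foxList ((ψ : A →* B).comp φ) j u := by
  induction u with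
  | nil => exact map_zero ψ
  | cons x u ih =>
    obtain ⟨i, b⟩ := x
    cases b with
    | true =>
      rw [foxList, foxList, map_add, map_mul, ih]
      congr 1
      split
      · exact map_one ψ
      · exact map_zero ψ
    | false =>
      rw [foxList, foxList, map_add, map_mul, ih]
      congr 1
      split
      · rw [map_neg]; rfl
      · exact map_zero ψ

theorem map_fox {B : Type*} [Ring B] (ψ : A →+* B) (φ : FreeGroup ι →* A) (j : ι)
    (u : FreeGroup ι) : ψ (fox φ j u) = fox ((ψ : A →* B).comp φ) j u := map_foxList ψ φ j _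

/-- the Fox derivative `∂w/∂x_j` in the integral group ring of the free group -/
noncomputable def foxDeriv (j : ι) (w : FreeGroup ι) : MonoidAlgebra ℤ (FreeGroup ι) :=
  fox (MonoidAlgebra.of ℤ (FreeGroup ι)) j w

/-- evaluation of the Fox derivative under the ring extension of `φ` -/
theorem lift_foxDeriv (φ : FreeGroup ι →* A) (j : ι) (w : FreeGroup ι) :
    MonoidAlgebra.lift ℤ A (FreeGroup ι) φ (foxDeriv j w) = fox φ j w := by
  have h := map_fox (MonoidAlgebra.lift ℤ A (FreeGroup ι) φ).toRingHom
    (MonoidAlgebra.of ℤ (FreeGroup ι)) j w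
  refine h.trans ?_
  congr 1
  ext i
  simp

end Pool.Agent.Helper35.DFJ
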