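import Pool.Agent.Helper20.DFJ.Lines
import Pool.Agent.Helper95.DFJ.Wada

/-!
# DFJ: deficiency one Wirtinger presentations of grid groups, and the denominator of Wada's invariant

* `grid_presentation`: for a grid diagram of size `m + 1`, the generators `x_0, …, x_m` (one for
  every vertical segment) and the Wirtinger relators of all rows but one row `r₀` present the group
  of the diagram. So the deficiency one presentations of the final theorem exist, and the usual
  Wirtinger presentations are among them.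
* `wadaDen_eq`: the denominator `det Φ(x_k - 1)` is `1 - tr(ρ(x_k)) T^a + T^(2a)`,
  `a = α(x_k)`; it is nonzero with `breadth = 2 |a|` if `a ≠ 0`; for a meridian `a = 1`.
-/

noncomputable section

namespace Pool.Agent.Helper35.DFJ

open Multiplicative Pool.Agent.Helper95.DFJ Pool.Agent.Helper20.DFJ
open scoped LaurentPolynomial MatrixGroups

/-- the Wirtinger relators of all rows but `r₀` -/
def wirtRels {m : ℕ} (D : Grid (m + 1)) (r₀ : Fin (m + 1)) (i : Fin m) : FreeGroup (Fin (m + 1)) :=
  D.rel (r₀.succAbove i)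

/-- the canonical map of the free group on the vertical segments to the group of the diagram -/
def gridMap {M : ℕ} (D : Grid M) : FreeGroup (Fin M) →* D.Grp :=
  PresentedGroup.mk (Set.range D.rel)

theorem gridMap_of {M : ℕ} (D : Grid M) (c : Fin M) : gridMap D (FreeGroup.of c) = D.mer c := rfl

/-- the Wirtinger presentation of a grid group with one relation dropped -/
theorem grid_presentation {m : ℕ} (D : Grid (m + 1)) (r₀ : Fin (m + 1)) :
    IsPresentation (wirtRels D r₀) (gridMap D) := by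
  refine ⟨PresentedGroup.mk_surjective _, ?_⟩
  have hker : (gridMap D).ker = Subgroup.normalClosure (Set.range D.rel) :=
    QuotientGroup.ker_mk' _
  rw [hker]
  set N := Subgroup.normalClosure (Set.range (wirtRels D r₀)) with hN
  apply le_antisymm
  · apply Subgroup.normalClosure_le_normal
    rintro _ ⟨r, rfl⟩
    let x : Fin (m + 1) → FreeGroup (Fin (m + 1)) ⧸ N := fun c => QuotientGroup.mk' N (FreeGroup.of c)
    have hrel : ∀ r, QuotientGroup.mk' N (D.rel r) = 1 ↔ D.Wirt x r := by
      intro r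
      unfold Grid.rel Grid.Wirt
      rw [map_mul, map_inv, mul_inv_eq_one, map_mul, map_mul, map_inv, Grid.map_overWord]
    have h1 : ∀ r, r ≠ r₀ → D.Wirt x r := by
      intro r hr
      obtain ⟨i, rfl⟩ := Fin.exists_succAbove_eq hr
      rw [← hrel]
      exact (QuotientGroup.eq_one_iff _).2 (Subgroup.subset_normalClosure ⟨i, rfl⟩)
    have h2 : D.Wirt x r := by
      by_cases hr : r = r₀
      · subst hr
        exact D.wirt_of_all_but_one x r h1
      · exact h1 r hr
    exact (QuotientGroup.eq_one_iff _).1 ((hrel r).2 h2)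
  · apply Subgroup.normalClosure_mono
    rintro _ ⟨i, rfl⟩
    exact ⟨_, rfl⟩

/-- a homomorphism of a grid group of degree one on all meridians -/
def gridAlpha {M : ℕ} (D : Grid M) : D.Grp →* Multiplicative ℤ :=
  D.lift (fun _ => ofAdd 1) (fun r => by
    unfold Grid.Wirt
    rw [mul_assoc, mul_comm _ (D.overWord _ r), inv_mul_cancel_left])

theorem gridAlpha_mer {M : ℕ} (D : Grid M) (c : Fin M) : gridAlpha D (D.mer c) = ofAdd 1 :=
  D.lift_mer _ _ c

section Den

variable {G : Type*} [Group G] {m : ℕ}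

theorem wadaDen_eq (ρ : G →* SL(2, ℂ)) (α : G →* Multiplicative ℤ)
    (π : FreeGroup (Fin (m + 1)) →* G) (k : Fin (m + 1)) :
    wadaDen ρ α π k = 1 - LaurentPolynomial.C (ρ (π (FreeGroup.of k)) : Matrix (Fin 2) (Fin 2) ℂ).trace *
      LaurentPolynomial.T (toAdd (α (π (FreeGroup.of k)))) +
      LaurentPolynomial.T (2 * toAdd (α (π (FreeGroup.of k)))) := by
  set g := π (FreeGroup.of k) with hg
  set a := toAdd (α g) with ha
  have h1 : wadaPhi ρ α π (MonoidAlgebra.single (FreeGroup.of k) 1 - 1) =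
      (LaurentPolynomial.T a : ℂ[T;T⁻¹]) •
        ((ρ g : Matrix (Fin 2) (Fin 2) ℂ).map LaurentPolynomial.C) - 1 := by
    rw [map_sub, map_one, wadaPhi, MonoidAlgebra.lift_single, one_smul]
    rfl
  have h2 : (ρ g : Matrix (Fin 2) (Fin 2) ℂ) 0 0 * (ρ g : Matrix (Fin 2) (Fin 2) ℂ) 1 1 -
      (ρ g : Matrix (Fin 2) (Fin 2) ℂ) 0 1 * (ρ g : Matrix (Fin 2) (Fin 2) ℂ) 1 0 = 1 := by
    rw [← Matrix.det_fin_two]
    exact (ρ g).2
  have h3 : (LaurentPolynomial.C ((ρ g : Matrix (Fin 2) (Fin 2) ℂ) 0 0) : ℂ[T;T⁻¹]) *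
      LaurentPolynomial.C ((ρ g : Matrix (Fin 2) (Fin 2) ℂ) 1 1) -
      LaurentPolynomial.C ((ρ g : Matrix (Fin 2) (Fin 2) ℂ) 0 1) *
      LaurentPolynomial.C ((ρ g : Matrix (Fin 2) (Fin 2) ℂ) 1 0) = 1 := by
    rw [← map_mul, ← map_mul, ← map_sub, h2, map_one]
  rw [wadaDen, h1, Matrix.det_fin_two, Matrix.trace_fin_two, map_add,
    show (2 : ℤ) * a = a + a by ring, LaurentPolynomial.T_add]
  simp only [Matrix.sub_apply, Matrix.smul_apply, Matrix.map_apply, smul_eq_mul,
    Matrix.one_apply_eq, Matrix.one_apply_ne (show (0 : Fin 2) ≠ 1 by decide),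
    Matrix.one_apply_ne (show (1 : Fin 2) ≠ 0 by decide), sub_zero]
  linear_combination (LaurentPolynomial.T a * LaurentPolynomial.T a : ℂ[T;T⁻¹]) * h3

theorem coeff_quad (c : ℂ) (a : ℤ) (n : ℤ) :
    (1 - LaurentPolynomial.C c * LaurentPolynomial.T a + LaurentPolynomial.T (2 * a) :
      ℂ[T;T⁻¹]).coeff n =
      (if n = 0 then 1 else 0) - (if n = a then c else 0) + (if n = 2 * a then 1 else 0) := by
  rw [← LaurentPolynomial.single_eq_C_mul_T, ← LaurentPolynomial.T_zero]
  change (Finsupp.single (0 : ℤ) (1 : ℂ) - Finsupp.single a c + Finsupp.single (2 * a) (1 : ℂ)) n = _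
  rw [Finsupp.add_apply, Finsupp.sub_apply, Finsupp.single_apply, Finsupp.single_apply,
    Finsupp.single_apply]
  simp only [eq_comm]

theorem breadth_quad (c : ℂ) {a : ℤ} (ha : a ≠ 0) :
    (1 - LaurentPolynomial.C c * LaurentPolynomial.T a + LaurentPolynomial.T (2 * a) :
      ℂ[T;T⁻¹]) ≠ 0 ∧
    breadth (1 - LaurentPolynomial.C c * LaurentPolynomial.T a + LaurentPolynomial.T (2 * a)) =
      2 * |a| := by
  set f : ℂ[T;T⁻¹] :=
    1 - LaurentPolynomial.C c * LaurentPolynomial.T a + LaurentPolynomial.T (2 * a) with hf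
  have h0 : f.coeff 0 = 1 := by
    rw [hf, coeff_quad, if_pos rfl, if_neg (Ne.symm ha), if_neg (by omega)]
    ring
  have h2 : f.coeff (2 * a) = 1 := by
    rw [hf, coeff_quad, if_neg (by omega), if_neg (by omega), if_pos rfl]
    ring
  have hs : ∀ n, n ∈ f.coeff.support → n = 0 ∨ n = a ∨ n = 2 * a := by
    intro n hn
    rw [Finsupp.mem_support_iff, hf, coeff_quad] at hn
    by_contra hcon
    push Not at hcon
    rw [if_neg hcon.1, if_neg hcon.2.1, if_neg hcon.2.2] at hn
    apply hn
    ring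
  have m0 : (0 : ℤ) ∈ f.coeff.support := by
    rw [Finsupp.mem_support_iff, h0]
    exact one_ne_zero
  have m2 : (2 * a : ℤ) ∈ f.coeff.support := by
    rw [Finsupp.mem_support_iff, h2]
    exact one_ne_zero
  have hne : f.coeff.support.Nonempty := ⟨0, m0⟩
  refine ⟨?_, ?_⟩
  · intro h
    rw [h] at h0
    exact zero_ne_one h0
  · rw [breadth, dif_pos hne]
    have hM := Finset.max'_mem _ hne
    have hm := Finset.min'_mem _ hne
    have e1 := Finset.le_max' _ _ m0
    have e2 := Finset.le_max' _ _ m2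
    have e3 := Finset.min'_le _ _ m0
    have e4 := Finset.min'_le _ _ m2
    have k1 := hs _ hM
    have k2 := hs _ hm
    rcases abs_cases a with h | h <;> omega

/-- the denominator of Wada's invariant is nonzero, of degree `2 |α(x_k)|`, if `α(x_k) ≠ 0` -/
theorem wadaDen_breadth (ρ : G →* SL(2, ℂ)) (α : G →* Multiplicative ℤ)
    (π : FreeGroup (Fin (m + 1)) →* G) (k : Fin (m + 1))
    (h : toAdd (α (π (FreeGroup.of k))) ≠ 0) :
    wadaDen ρ α π k ≠ 0 ∧
      breadth (wadaDen ρ α π k) = 2 * |toAdd (α (π (FreeGroup.of k)))| := by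
  rw [wadaDen_eq]
  exact breadth_quad _ h

end Den

/-- for the Wirtinger presentation of a grid group (one relation dropped) and every generator
`x_k` the denominator of Wada's invariant is nonzero and has degree two -/
theorem grid_wadaDen {m : ℕ} (D : Grid (m + 1)) (α : D.Grp →* Multiplicative ℤ)
    (hα : ∀ c, α (D.mer c) = ofAdd 1) (ρ : D.Grp →* SL(2, ℂ)) (k : Fin (m + 1)) :
    wadaDen ρ α (gridMap D) k ≠ 0 ∧ breadth (wadaDen ρ α (gridMap D) k) = 2 := by
  have h : toAdd (α (gridMap D (FreeGroup.of k))) = 1 := by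
    rw [gridMap_of, hα]
    rfl
  have h1 := wadaDen_breadth ρ α (gridMap D) k (by rw [h]; exact one_ne_zero)
  rw [h, abs_one, mul_one] at h1
  exact h1

/-- every grid group has a deficiency one presentation with nonzero denominators -/
theorem exists_presentation {m : ℕ} (D : Grid (m + 1)) (α : D.Grp →* Multiplicative ℤ)
    (hα : ∀ c, α (D.mer c) = ofAdd 1) (ρ : D.Grp →* SL(2, ℂ)) :
    ∃ (r : Fin m → FreeGroup (Fin (m + 1))) (π : FreeGroup (Fin (m + 1)) →* D.Grp),
      IsPresentation r π ∧ (∀ c, π (FreeGroup.of c) = D.mer c) ∧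
      ∀ k, wadaDen ρ α π k ≠ 0 ∧ breadth (wadaDen ρ α π k) = 2 :=
  ⟨wirtRels D 0, gridMap D, grid_presentation D 0, fun _ => rfl, grid_wadaDen D α hα ρ⟩

end Pool.Agent.Helper35.DFJ
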