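import Mathlib
import Pool.Agent.Helper35.DFJ.Seq
import Pool.Agent.Helper35.DFJ.Fox

/-!
PROJECT DFJ (MP_03f222_gt): the degree of the determinant of the Fox matrix (one column deleted)
of a deficiency one presentation is the dimension of the space of crossed homomorphisms into
two-sided sequences which vanish on the deleted generator.
-/

namespace Pool.Agent.Helper35.DFJ

open scoped Polynomial
open LaurentPolynomial Module

variable {Γ : Type*} [Group Γ] {K : Type*} [Field K] {d : ℕ}

/-- `Φ = ρ ⊗ α`, `g ↦ T^(α g) ρ(g)` -/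
noncomputable def Phi (ρ : Γ →* GL (Fin d) K) (α : Γ →* Multiplicative ℤ) :
    Γ →* Matrix (Fin d) (Fin d) K[T;T⁻¹] where
  toFun g := (T (Multiplicative.toAdd (α g)) : K[T;T⁻¹]) •
    ((ρ g : GL (Fin d) K) : Matrix (Fin d) (Fin d) K).map C
  map_one' := by
    rw [map_one ρ, map_one α, toAdd_one, T_zero, one_smul, Units.val_one]
    exact Matrix.map_one C (map_zero C) (map_one C)
  map_mul' g h := by
    rw [map_mul ρ, map_mul α, toAdd_mul, T_add, Units.val_mul, Matrix.map_mul, Matrix.smul_mul,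
      Matrix.mul_smul, smul_smul]

/-- crossed homomorphisms `c : Γ → (ℤ → K^d)` with `c k₀ = 0`; `g` acts on a two-sided sequence by
`(g s)(k) = ρ(g) s(k + α(g))`. -/
def Coc (ρ : Γ →* GL (Fin d) K) (α : Γ →* Multiplicative ℤ) (k₀ : Γ) :
    Submodule K (Γ → ℤ → Fin d → K) where
  carrier := {c | (∀ g h k, c (g * h) k = c g k +
    ((ρ g : GL (Fin d) K) : Matrix (Fin d) (Fin d) K).mulVec
      (c h (k + Multiplicative.toAdd (α g)))) ∧ c k₀ = 0}
  add_mem' := by
    rintro c c' ⟨hc, h0⟩ ⟨hc', h0'⟩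
    refine ⟨fun g h k => ?_, ?_⟩
    · simp only [Pi.add_apply]
      rw [hc, hc', Matrix.mulVec_add]
      abel
    · rw [Pi.add_apply, h0, h0', add_zero]
  zero_mem' := by
    refine ⟨fun g h k => ?_, rfl⟩
    simp
  smul_mem' := by
    rintro a c ⟨hc, h0⟩
    refine ⟨fun g h k => ?_, ?_⟩
    · simp only [Pi.smul_apply]
      rw [hc, Matrix.mulVec_smul, smul_add]
    · rw [Pi.smul_apply, h0, smul_zero]

/-- action of a matrix of Laurent polynomials on a vector valued sequence -/
noncomputable def mact (B : Matrix (Fin d) (Fin d) K[T;T⁻¹]) (s : ℤ → Fin d → K) :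
    ℤ → Fin d → K := fun k a => ∑ b, act (B a b) (fun n => s n b) k

theorem act_add (f g : K[T;T⁻¹]) (s : ℤ → K) (k : ℤ) : act (f + g) s k = act f s k + act g s k := by
  rw [act, act, act, mul_add, map_add]

theorem act_sum {ι : Type*} (t : Finset ι) (f : ι → K[T;T⁻¹]) (s : ℤ → K) (k : ℤ) :
    act (∑ i ∈ t, f i) s k = ∑ i ∈ t, act (f i) s k := by
  rw [act, Finset.mul_sum, map_sum]
  rfl

theorem act_shift (a : K) (n : ℤ) (f : K[T;T⁻¹]) (s : ℤ → K) (k : ℤ) :
    act (T n * C a * f) s k = a * act f s (k + n) := by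
  rw [act, act, show (T k : K[T;T⁻¹]) * (T n * C a * f) = C a * (T (k + n) * f) by
    rw [T_add]; ring, ← LaurentPolynomial.smul_eq_C_mul, map_smul, smul_eq_mul]

theorem mact_add (B B' : Matrix (Fin d) (Fin d) K[T;T⁻¹]) (s : ℤ → Fin d → K) :
    mact (B + B') s = mact B s + mact B' s := by
  funext k a
  simp only [mact, Pi.add_apply, Matrix.add_apply, act_add, Finset.sum_add_distrib]

theorem mact_one (s : ℤ → Fin d → K) : mact 1 s = s := by
  funext k a
  simp only [mact]
  rw [Finset.sum_eq_single a]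
  · rw [Matrix.one_apply_eq, act, mul_one, pair_T]
  · intro b _ hb
    rw [Matrix.one_apply_ne (Ne.symm hb), act, mul_zero, map_zero]
  · intro h
    exact absurd (Finset.mem_univ a) h

theorem mact_zero (s : ℤ → Fin d → K) : mact (0 : Matrix (Fin d) (Fin d) K[T;T⁻¹]) s = 0 := by
  funext k a
  simp only [mact, Matrix.zero_apply, Pi.zero_apply]
  refine Finset.sum_eq_zero fun b _ => ?_
  rw [act, mul_zero, map_zero]

theorem mact_zero_right (B : Matrix (Fin d) (Fin d) K[T;T⁻¹]) : mact B (0 : ℤ → Fin d → K) = 0 := by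
  funext k a
  simp only [mact, Pi.zero_apply]
  refine Finset.sum_eq_zero fun b _ => ?_
  simp [act, pair, Finsupp.linearCombination_apply, Finsupp.sum]

theorem mact_mul (ρ : Γ →* GL (Fin d) K) (α : Γ →* Multiplicative ℤ) (g : Γ)
    (B : Matrix (Fin d) (Fin d) K[T;T⁻¹]) (s : ℤ → Fin d → K) (k : ℤ) :
    mact (Phi ρ α g * B) s k = ((ρ g : GL (Fin d) K) : Matrix (Fin d) (Fin d) K).mulVec
      (mact B s (k + Multiplicative.toAdd (α g))) := by
  funext a
  have h1 : ∀ b, (Phi ρ α g * B) a b = ∑ e, T (Multiplicative.toAdd (α g)) *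
      C (((ρ g : GL (Fin d) K) : Matrix (Fin d) (Fin d) K) a e) * B e b := by
    intro b
    rw [Matrix.mul_apply]
    rfl
  simp only [mact, h1, act_sum, act_shift, Matrix.mulVec, dotProduct, Finset.mul_sum]
  rw [Finset.sum_comm]

section
variable {ι : Type*} [Fintype ι] [DecidableEq ι] (ρ : Γ →* GL (Fin d) K)
  (α : Γ →* Multiplicative ℤ) (π : FreeGroup ι →* Γ)

/-- the crossed homomorphism of the free group with given values on the generators -/
noncomputable def extc (s : ι → ℤ → Fin d → K) (w : FreeGroup ι) : ℤ → Fin d → K :=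
  ∑ j, mact (fox ((Phi ρ α).comp π) j w) (s j)

theorem extc_mul (s : ι → ℤ → Fin d → K) (u v : FreeGroup ι) (k : ℤ) :
    extc ρ α π s (u * v) k = extc ρ α π s u k +
      ((ρ (π u) : GL (Fin d) K) : Matrix (Fin d) (Fin d) K).mulVec
        (extc ρ α π s v (k + Multiplicative.toAdd (α (π u)))) := by
  simp only [extc, Finset.sum_apply, fox_mul, mact_add, Pi.add_apply, Finset.sum_add_distrib,
    MonoidHom.comp_apply, mact_mul]
  rw [← Matrix.mulVecLin_apply, map_sum]
  rfl

theorem extc_of (s : ι → ℤ → Fin d → K) (i : ι) :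
    extc ρ α π s (FreeGroup.of i) = s i := by
  rw [extc, Finset.sum_eq_single i]
  · rw [fox_of, if_pos rfl, mact_one]
  · intro j _ hj
    rw [fox_of, if_neg (Ne.symm hj), mact_zero]
  · intro h
    exact absurd (Finset.mem_univ i) h

theorem extc_one (s : ι → ℤ → Fin d → K) : extc ρ α π s 1 = 0 := by
  rw [extc]
  refine Finset.sum_eq_zero fun j _ => ?_
  rw [fox_one, mact_zero]

theorem coc_map_one {ρ : Γ →* GL (Fin d) K} {α : Γ →* Multiplicative ℤ} {k₀ : Γ}
    {c : Γ → ℤ → Fin d → K} (hc : c ∈ Coc ρ α k₀) : c 1 = 0 := by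
  funext k
  have h := hc.1 1 1 k
  rw [_root_.map_one, _root_.map_one, mul_one, Units.val_one, Matrix.one_mulVec, toAdd_one,
    add_zero] at h
  exact left_eq_add.1 h

theorem coc_eq_extc {k₀ : Γ} {c : Γ → ℤ → Fin d → K} (hc : c ∈ Coc ρ α k₀) (w : FreeGroup ι) :
    c (π w) = extc ρ α π (fun j => c (π (FreeGroup.of j))) w := by
  set s : ι → ℤ → Fin d → K := fun j => c (π (FreeGroup.of j)) with hs
  induction w using FreeGroup.induction_on with
  | C1 => rw [_root_.map_one, coc_map_one hc, extc_one]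
  | of i => rw [extc_of]
  | inv_of i ih =>
    funext k
    have h1 := hc.1 (π (FreeGroup.of i)⁻¹) (π (FreeGroup.of i)) k
    have h2 := extc_mul ρ α π s (FreeGroup.of i)⁻¹ (FreeGroup.of i) k
    rw [inv_mul_cancel, extc_one] at h2
    rw [← map_mul, inv_mul_cancel, _root_.map_one, coc_map_one hc] at h1
    rw [ih] at h1
    have h3 := h1.symm.trans h2
    exact add_right_cancel h3
  | mul u v hu hv =>
    funext k
    rw [map_mul, hc.1, hu, hv, extc_mul]

end

section
variable {n : ℕ} (ρ : Γ →* GL (Fin d) K) (α : Γ →* Multiplicative ℤ)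
  (π : FreeGroup (Fin (n + 1)) →* Γ) (r : Fin n → FreeGroup (Fin (n + 1)))

/-- the Fox matrix with the column `k` deleted -/
noncomputable def foxMatrix (Φ : FreeGroup (Fin (n + 1)) →* Matrix (Fin d) (Fin d) K[T;T⁻¹])
    (r : Fin n → FreeGroup (Fin (n + 1))) (k : Fin (n + 1)) :
    Matrix (Fin n × Fin d) (Fin n × Fin d) K[T;T⁻¹] :=
  Matrix.of fun p q => fox Φ (k.succAbove q.1) (r p.1) p.2 q.2

theorem sum_eq_extc (k : Fin (n + 1)) (s : Fin (n + 1) → ℤ → Fin d → K) (hk : s k = 0)
    (i : Fin n) (a : Fin d) (z : ℤ) :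
    ∑ q : Fin n × Fin d, act (foxMatrix ((Phi ρ α).comp π) r k (i, a) q)
      (fun m => s (k.succAbove q.1) m q.2) z = extc ρ α π s (r i) z a := by
  rw [extc, Fin.sum_univ_succAbove _ k, hk, mact_zero_right, zero_add, Finset.sum_apply,
    Finset.sum_apply, Fintype.sum_prod_type]
  rfl

/-- restriction of cocycles to the generators -/
noncomputable def restr (hr : ∀ i, π (r i) = 1) (k : Fin (n + 1)) :
    Coc ρ α (π (FreeGroup.of k)) →ₗ[K] SeqKer (foxMatrix ((Phi ρ α).comp π) r k) where
  toFun c := ⟨fun q z => c.1 (π (FreeGroup.of (k.succAbove q.1))) z q.2, by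
    intro p z
    obtain ⟨i, a⟩ := p
    have h := sum_eq_extc ρ α π r k (fun j => c.1 (π (FreeGroup.of j))) c.2.2 i a z
    rw [← coc_eq_extc ρ α π c.2, hr, coc_map_one c.2] at h
    exact h⟩
  map_add' _ _ := rfl
  map_smul' _ _ := rfl

theorem restr_injective (hr : ∀ i, π (r i) = 1) (k : Fin (n + 1))
    (hsurj : Function.Surjective π) : Function.Injective (restr ρ α π r hr k) := by
  rw [injective_iff_map_eq_zero]
  intro c hc
  have h0 : (fun j => c.1 (π (FreeGroup.of j))) = 0 := by
    funext j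
    by_cases hj : j = k
    · subst hj
      exact c.2.2
    · obtain ⟨i, rfl⟩ := Fin.exists_succAbove_eq hj
      funext z b
      have h1 := congrArg Subtype.val hc
      exact congrFun (congrFun h1 (i, b)) z
  apply Subtype.ext
  funext g
  obtain ⟨w, rfl⟩ := hsurj g
  rw [coc_eq_extc ρ α π c.2, h0, extc]
  exact Finset.sum_eq_zero fun j _ => mact_zero_right _

theorem restr_surjective (hr : ∀ i, π (r i) = 1) (k : Fin (n + 1))
    (hsurj : Function.Surjective π)
    (hker : ∀ w, π w = 1 → w ∈ Subgroup.normalClosure (Set.range r)) :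
    Function.Surjective (restr ρ α π r hr k) := by
  intro s
  let s' : Fin (n + 1) → ℤ → Fin d → K :=
    k.insertNth (α := fun _ => ℤ → Fin d → K) 0 (fun j z b => s.1 (j, b) z)
  have hk : s' k = 0 := Fin.insertNth_apply_same _ _ _
  have hs' : ∀ j, s' (k.succAbove j) = fun z b => s.1 (j, b) z := fun j =>
    Fin.insertNth_apply_succAbove _ _ _ _
  have hri : ∀ i, extc ρ α π s' (r i) = 0 := by
    intro i
    funext z a
    rw [← sum_eq_extc ρ α π r k s' hk i a z]
    have h := s.2 (i, a) z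
    rw [Pi.zero_apply, Pi.zero_apply, ← h]
    refine Finset.sum_congr rfl fun q _ => ?_
    rw [hs']
  -- `extc` vanishes on the kernel
  let N : Subgroup (FreeGroup (Fin (n + 1))) :=
    { carrier := {w | π w = 1 ∧ extc ρ α π s' w = 0}
      mul_mem' := by
        rintro u v ⟨hu, hu0⟩ ⟨hv, hv0⟩
        refine ⟨by rw [map_mul, hu, hv, one_mul], ?_⟩
        funext z
        rw [extc_mul, hu0, hv0]
        simp
      one_mem' := ⟨map_one π, extc_one ρ α π s'⟩
      inv_mem' := by
        rintro u ⟨hu, hu0⟩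
        have hu' : π u⁻¹ = 1 := by rw [map_inv, hu, inv_one]
        refine ⟨hu', ?_⟩
        funext z
        have h := extc_mul ρ α π s' u⁻¹ u z
        rw [inv_mul_cancel, extc_one, hu0] at h
        simpa using h.symm }
  have hN : N.Normal := by
    refine ⟨?_⟩
    rintro w ⟨hw, hw0⟩ g
    refine ⟨by rw [map_mul, map_mul, hw, mul_one, map_inv, mul_inv_cancel], ?_⟩
    funext z
    have h := extc_mul ρ α π s' g g⁻¹ z
    rw [mul_inv_cancel, extc_one] at h
    rw [extc_mul, extc_mul, hw0, map_mul, hw, mul_one]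
    simpa using h.symm
  have hle : Subgroup.normalClosure (Set.range r) ≤ N := by
    apply Subgroup.normalClosure_le_normal
    rintro _ ⟨i, rfl⟩
    exact ⟨hr i, hri i⟩
  have hwd : ∀ u v, π u = π v → extc ρ α π s' u = extc ρ α π s' v := by
    intro u v huv
    have h1 : π (u⁻¹ * v) = 1 := by rw [map_mul, map_inv, huv, inv_mul_cancel]
    have h2 := (hle (hker _ h1)).2
    funext z
    have h3 := extc_mul ρ α π s' u (u⁻¹ * v) z
    rw [mul_inv_cancel_left, h2] at h3
    rw [h3]
    simp
  let σ := Function.surjInv hsurj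
  have hσ : ∀ g, π (σ g) = g := Function.surjInv_eq hsurj
  let c : Γ → ℤ → Fin d → K := fun g => extc ρ α π s' (σ g)
  have hc : ∀ w, c (π w) = extc ρ α π s' w := fun w => hwd _ _ (hσ _)
  have hcmem : c ∈ Coc ρ α (π (FreeGroup.of k)) := by
    refine ⟨?_, ?_⟩
    · intro g h z
      have h1 : c (g * h) = extc ρ α π s' (σ g * σ h) := by
        rw [← hc, map_mul, hσ, hσ]
      rw [h1, extc_mul, hσ]
    · rw [hc, extc_of, hk]
  refine ⟨⟨c, hcmem⟩, ?_⟩
  apply Subtype.ext
  funext q z
  change c (π (FreeGroup.of (k.succAbove q.1))) z q.2 = _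
  rw [hc, extc_of, hs']

/-- **Degree of the Fox determinant.** For a deficiency one presentation
`⟨x_0, …, x_n | r_1, …, r_n⟩` of `Γ`: if the space of crossed homomorphisms `Γ → (ℤ → K^d)`
vanishing on `x_k` is finite dimensional, then the determinant of the Fox matrix with column `k`
deleted is nonzero and its degree is the dimension of that space. -/
theorem fox_degree (hr : ∀ i, π (r i) = 1) (k : Fin (n + 1))
    (hsurj : Function.Surjective π)
    (hker : ∀ w, π w = 1 → w ∈ Subgroup.normalClosure (Set.range r))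
    (hfin : Module.Finite K (Coc ρ α (π (FreeGroup.of k)))) :
    (foxMatrix ((Phi ρ α).comp π) r k).det ≠ 0 ∧
    ldeg (foxMatrix ((Phi ρ α).comp π) r k).det =
      finrank K (Coc ρ α (π (FreeGroup.of k))) := by
  let e := LinearEquiv.ofBijective (restr ρ α π r hr k)
    ⟨restr_injective ρ α π r hr k hsurj, restr_surjective ρ α π r hr k hsurj hker⟩
  have h1 : Module.Finite K (SeqKer (foxMatrix ((Phi ρ α).comp π) r k)) :=
    Module.Finite.equiv e
  have h2 := det_ne_zero_of_seqKer h1
  exact ⟨h2, by rw [e.finrank_eq, (seqKer_dim h2).2]⟩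

end

end Pool.Agent.Helper35.DFJ
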